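import Pool.Agent.R547.LB.Stm

/-!
# 3-SAT as a hyperclique problem
-/

namespace Pool.Agent.R547.LB

namespace CombAux

theorem mem_vars {φ : List Clause3} {c : Clause3} (hc : c ∈ φ) :
    c.1.1 ∈ varsOf φ ∧ c.2.1.1 ∈ varsOf φ ∧ c.2.2.1 ∈ varsOf φ := by
  unfold varsOf
  refine ⟨?_, ?_, ?_⟩ <;>
  · rw [List.mem_flatMap]
    exact ⟨c, hc, by simp⟩

theorem pos_lt {φ : List Clause3} {v : ℕ} (hv : v ∈ varsOf φ) : posV φ v < numVars φ := by
  unfold posV numVars
  exact List.idxOf_lt_length_iff.2 (List.mem_dedup.2 hv)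

theorem block_lt {φ : List Clause3} {k v : ℕ} (hk : 1 ≤ k) (hv : v ∈ varsOf φ) :
    posV φ v / blk φ k < k := by
  have h1 := pos_lt hv
  have h2 : numVars φ < k * (numVars φ / k + 1) := Nat.lt_mul_div_succ _ (by omega)
  unfold blk
  rw [Nat.div_lt_iff_lt_mul (Nat.succ_pos _)]
  exact h1.trans h2

theorem getD_pos {φ : List Clause3} {v : ℕ} (hv : v ∈ varsOf φ) :
    (varsOf φ).dedup.getD (posV φ v) 0 = v := by
  have h1 : posV φ v < (varsOf φ).dedup.length := pos_lt hv
  rw [List.getD_eq_getElem _ _ h1]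
  exact List.getElem_idxOf h1

/-- the code of the partial assignment in the block `j` -/
def code (φ : List Clause3) (k : ℕ) (a : ℕ → Bool) (j : ℕ) : ℕ :=
  Nat.ofBits (fun i : Fin (blk φ k) => a ((varsOf φ).dedup.getD (j * blk φ k + i) 0))

theorem code_lt (φ : List Clause3) (k : ℕ) (a : ℕ → Bool) (j : ℕ) :
    code φ k a j < 2 ^ blk φ k := Nat.ofBits_lt_two_pow _

theorem code_bit {φ : List Clause3} {k v : ℕ} (a : ℕ → Bool) (hv : v ∈ varsOf φ) :
    (code φ k a (posV φ v / blk φ k)).testBit (posV φ v % blk φ k) = a v := by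
  have h1 : posV φ v % blk φ k < blk φ k := Nat.mod_lt _ (Nat.succ_pos _)
  unfold code
  rw [Nat.testBit_ofBits_lt _ _ h1]
  have h2 : posV φ v / blk φ k * blk φ k + posV φ v % blk φ k = posV φ v :=
    Nat.div_add_mod' _ _
  simp only [h2, getD_pos hv]

theorem mem_verts {k A : ℕ} {u : ℕ × ℕ} : u ∈ verts k A ↔ u.1 < k ∧ u.2 < A := by
  obtain ⟨x, y⟩ := u
  unfold verts
  rw [List.pair_mem_product, List.mem_range, List.mem_range]

theorem mem_hyp {φ : List Clause3} {k A : ℕ} {t : (ℕ × ℕ) × (ℕ × ℕ) × (ℕ × ℕ)} :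
    t ∈ hyp φ k A ↔ (t.1 ∈ verts k A ∧ t.2.1 ∈ verts k A ∧ t.2.2 ∈ verts k A) ∧
      compat φ k t = true := by
  obtain ⟨x, y, z⟩ := t
  unfold hyp
  rw [List.mem_filter, List.pair_mem_product, List.pair_mem_product]

theorem forward (φ : List Clause3) (k A : ℕ) (hA : 2 ^ blk φ k ≤ A) (h : Sat φ) :
    Dense (hyp φ k A) k (k ^ 3) := by
  obtain ⟨a, ha⟩ := h
  let f : ℕ → ℕ × ℕ := fun j => (j, code φ k a j)
  let S : Finset (ℕ × ℕ) := (Finset.range k).image f
  have hcard : S.card = k := by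
    rw [Finset.card_image_of_injective, Finset.card_range]
    intro i j hij
    exact congrArg Prod.fst hij
  have hS : ∀ u ∈ S, u.1 < k ∧ u = f u.1 := by
    intro u hu
    obtain ⟨j, hj, rfl⟩ := Finset.mem_image.1 hu
    exact ⟨Finset.mem_range.1 hj, rfl⟩
  have hv : ∀ u ∈ S, u ∈ verts k A := by
    intro u hu
    obtain ⟨h1, h2⟩ := hS u hu
    rw [mem_verts]
    refine ⟨h1, ?_⟩
    rw [h2]
    exact (code_lt φ k a u.1).trans_le hA
  have hsame : ∀ u ∈ S, ∀ v ∈ S, sameOK u v = true := by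
    intro u hu v hv
    unfold sameOK
    by_cases h1 : u.1 = v.1
    · have h2 : u = v := by rw [(hS u hu).2, (hS v hv).2, h1]
      simp [h2]
    · simp [h1]
  have hfal : ∀ u ∈ S, ∀ l : ℕ × Bool, l.1 ∈ varsOf φ → a l.1 = l.2 → falsi φ k u l = false := by
    intro u hu l hl hal
    unfold falsi
    by_cases h1 : posV φ l.1 / blk φ k = u.1
    · have h2 : u.2 = code φ k a (posV φ l.1 / blk φ k) := by
        rw [h1]
        have := (hS u hu).2
        exact congrArg Prod.snd this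
      rw [h2, code_bit a hl, hal]
      simp
    · simp [h1]
  have hsub : S ×ˢ S ×ˢ S ⊆ (hyp φ k A).toFinset := by
    intro t ht
    rw [Finset.mem_product, Finset.mem_product] at ht
    obtain ⟨h1, h2, h3⟩ := ht
    rw [List.mem_toFinset, mem_hyp]
    refine ⟨⟨hv _ h1, hv _ h2, hv _ h3⟩, ?_⟩
    unfold compat
    rw [hsame _ h1 _ h2, hsame _ h1 _ h3, hsame _ h2 _ h3]
    simp only [Bool.true_and, Bool.and_true, List.all_eq_true]
    intro c hc
    have hvc := mem_vars hc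
    have hlit : ∀ l : ℕ × Bool, l.1 ∈ varsOf φ → a l.1 = l.2 → litBad φ k t l = false := by
      intro l hl hal
      unfold litBad
      rw [hfal _ h1 l hl hal, hfal _ h2 l hl hal, hfal _ h3 l hl hal]
      rfl
    rcases ha c hc with h4 | h4 | h4
    · rw [hlit _ hvc.1 h4]; simp
    · rw [hlit _ hvc.2.1 h4]; simp
    · rw [hlit _ hvc.2.2 h4]; simp
  refine ⟨S, hcard.le, ?_⟩
  rw [Finset.inter_eq_right.2 hsub, Finset.card_product, Finset.card_product, hcard]
  exact le_of_eq (by ring)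

theorem backward (φ : List Clause3) (k A : ℕ) (hk : 1 ≤ k)
    (h : Dense (hyp φ k A) k (k ^ 3)) : Sat φ := by
  obtain ⟨S, hS1, hS2⟩ := h
  have h1 : ((hyp φ k A).toFinset ∩ S ×ˢ S ×ˢ S).card ≤ (S ×ˢ S ×ˢ S).card :=
    Finset.card_le_card Finset.inter_subset_right
  have h2 : (S ×ˢ S ×ˢ S).card = S.card ^ 3 := by
    rw [Finset.card_product, Finset.card_product]; ring
  have h3 : k ≤ S.card := by
    have : k ^ 3 ≤ S.card ^ 3 := by omega
    exact (Nat.pow_le_pow_iff_left (by norm_num)).1 this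
  have hcard : S.card = k := le_antisymm hS1 h3
  have h4 : (hyp φ k A).toFinset ∩ S ×ˢ S ×ˢ S = S ×ˢ S ×ˢ S := by
    apply Finset.eq_of_subset_of_card_le Finset.inter_subset_right
    rw [h2, hcard]
    exact hS2
  have hH : ∀ u ∈ S, ∀ v ∈ S, ∀ w ∈ S, (u, v, w) ∈ hyp φ k A := by
    intro u hu v hv w hw
    have h5 : (u, v, w) ∈ S ×ˢ S ×ˢ S :=
      Finset.mem_product.2 ⟨hu, Finset.mem_product.2 ⟨hv, hw⟩⟩
    rw [← h4] at h5
    exact List.mem_toFinset.1 (Finset.mem_inter.1 h5).1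
  have hlt : ∀ u ∈ S, u.1 < k := by
    intro u hu
    exact (mem_verts.1 (mem_hyp.1 (hH u hu u hu u hu)).1.1).1
  have hinj : ∀ u ∈ S, ∀ v ∈ S, u.1 = v.1 → u = v := by
    intro u hu v hv huv
    have h5 := (mem_hyp.1 (hH u hu v hv v hv)).2
    unfold compat at h5
    simp only [Bool.and_eq_true] at h5
    have h6 := h5.1.1.1
    unfold sameOK at h6
    simpa [huv] using h6
  have himg : S.image Prod.fst = Finset.range k := by
    apply Finset.eq_of_subset_of_card_le
    · intro j hj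
      obtain ⟨u, hu, rfl⟩ := Finset.mem_image.1 hj
      exact Finset.mem_range.2 (hlt u hu)
    · rw [Finset.card_range, Finset.card_image_of_injOn (fun u hu v hv huv => hinj u hu v hv huv),
        hcard]
  have hex : ∀ j, ∃ u : ℕ × ℕ, j < k → u ∈ S ∧ u.1 = j := by
    intro j
    by_cases hj : j < k
    · have h5 : j ∈ S.image Prod.fst := by rw [himg]; exact Finset.mem_range.2 hj
      obtain ⟨u, hu, hu2⟩ := Finset.mem_image.1 h5
      exact ⟨u, fun _ => ⟨hu, hu2⟩⟩
    · exact ⟨(0, 0), fun h => absurd h hj⟩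
  choose s hs using hex
  refine ⟨fun v => (s (posV φ v / blk φ k)).2.testBit (posV φ v % blk φ k), ?_⟩
  intro c hc
  obtain ⟨v1, v2, v3⟩ := mem_vars hc
  have b1 := hs _ (block_lt hk v1)
  have b2 := hs _ (block_lt hk v2)
  have b3 := hs _ (block_lt hk v3)
  have h5 := (mem_hyp.1 (hH _ b1.1 _ b2.1 _ b3.1)).2
  unfold compat at h5
  simp only [Bool.and_eq_true] at h5
  have h6 := List.all_eq_true.1 h5.2 c hc
  have hfal : ∀ l : ℕ × Bool, ∀ u : ℕ × ℕ, u.1 = posV φ l.1 / blk φ k → falsi φ k u l = false →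
      u.2.testBit (posV φ l.1 % blk φ k) = l.2 := by
    intro l u hu hf
    unfold falsi at hf
    simpa [hu] using hf
  by_contra hcon
  rw [not_or, not_or] at hcon
  obtain ⟨n1, n2, n3⟩ := hcon
  have g1 : falsi φ k (s (posV φ c.1.1 / blk φ k)) c.1 = true := by
    by_contra hc1
    exact n1 (hfal _ _ b1.2 (Bool.eq_false_iff.2 hc1))
  have g2 : falsi φ k (s (posV φ c.2.1.1 / blk φ k)) c.2.1 = true := by
    by_contra hc1
    exact n2 (hfal _ _ b2.2 (Bool.eq_false_iff.2 hc1))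
  have g3 : falsi φ k (s (posV φ c.2.2.1 / blk φ k)) c.2.2 = true := by
    by_contra hc1
    exact n3 (hfal _ _ b3.2 (Bool.eq_false_iff.2 hc1))
  unfold litBad at h6
  simp only [g1, g2, g3, Bool.true_or, Bool.or_true, Bool.and_self, Bool.not_true] at h6
  exact absurd h6 (by decide)

end CombAux

theorem t_Comb : StmComb := fun φ k A hk hA =>
  ⟨CombAux.forward φ k A hA, CombAux.backward φ k A hk⟩

end Pool.Agent.R547.LB
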