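import Pool.Agent.H633R2.FptDefs

/-!
# Unanimity lobbying with a quota of issues, and the exponential time hypothesis
-/

namespace Pool.Agent.R547.LB

open Pool.Agent.NPC Turing

/-- Lobbying under unanimity with a quota: the lobby may replace at most `k` rows of the
profile `X` (voters `Fin n`, issues `Fin m`) so that in the new profile `Y` at least `z` columns
are all ones. -/
def Lobby {n m : ℕ} (X : Fin n → Fin m → Bool) (k z : ℕ) : Prop :=
  ∃ Y : Fin n → Fin m → Bool,
    (Finset.univ.filter (fun i => Y i ≠ X i)).card ≤ k ∧
    z ≤ (Finset.univ.filter (fun j => ∀ i, Y i j = true)).card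

/-- The number of issues of a profile given by the list of its rows. -/
def issues (X : List (List Bool)) : ℕ := (X.headD []).length

/-- The decision problem `OLD(Unan, ψ_z)`. An instance is a profile (the list of its rows, at
least one row, all rows of the same length `m`) together with a budget `k`, at most the number of
voters; the question is whether lobbying at most `k` voters makes at least `z m` issues pass. -/
def OLD (z : ℕ → ℕ) (I : List (List Bool) × ℕ) : Prop :=
  I.1 ≠ [] ∧ (∀ r ∈ I.1, r.length = issues I.1) ∧ I.2 ≤ I.1.length ∧
    Lobby (fun (i : Fin I.1.length) (j : Fin (issues I.1)) => (I.1.get i).getD j.1 false) I.2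
      (z (issues I.1))

/-- A clause with three literals; a literal is a variable with a sign (`true`: not negated). -/
abbrev Clause3 := (ℕ × Bool) × (ℕ × Bool) × (ℕ × Bool)

/-- Satisfiability of a 3-CNF formula given by its list of clauses. -/
def Sat (φ : List Clause3) : Prop :=
  ∃ a : ℕ → Bool, ∀ c ∈ φ, a c.1.1 = c.1.2 ∨ a c.2.1.1 = c.2.1.2 ∨ a c.2.2.1 = c.2.2.2

/-- The variables of a formula, with repetitions. -/
def varsOf (φ : List Clause3) : List ℕ := φ.flatMap (fun c => [c.1.1, c.2.1.1, c.2.2.1])

/-- The number of variables of a formula. -/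
def numVars (φ : List Clause3) : ℕ := (varsOf φ).dedup.length

/-- Some Turing machine, on every 3-CNF formula `φ` with `N` variables, stops with a one-bit
answer within `2 ^ (δ * N) * p (|φ|)` steps (`p` a polynomial, `|φ|` the length of the code of
`φ`), and the answer is right whenever `N ∈ A`. -/
def SatIn (δ : ℝ) (A : Set ℕ) : Prop :=
  ∃ (M : TM2ComputableAux Bool Bool) (p : Polynomial ℕ), ∀ φ : List Clause3, ∃ (t : ℕ) (b : Bool),
    Pool.Agent.H633R2.TmRuns M (bits φ) (bits b) t ∧
    (t : ℝ) ≤ (2 : ℝ) ^ (δ * (numVars φ : ℝ)) * (p.eval (bits φ).length : ℕ) ∧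
    (numVars φ ∈ A → (b = true ↔ Sat φ))

/-- The exponential time hypothesis: for some `δ > 0`, no Turing machine decides 3-SAT in time
`2 ^ (δ * N)` times a polynomial of the input length, `N` the number of variables. -/
def ETH : Prop := ∃ δ : ℝ, 0 < δ ∧ ¬ SatIn δ Set.univ

/-- The infinitely-often form of the exponential time hypothesis: for some `δ > 0`, no Turing
machine with running time `2 ^ (δ * N)` times a polynomial of the input length decides 3-SAT
correctly for infinitely many values of `N`. -/
def IoETH : Prop := ∃ δ : ℝ, 0 < δ ∧ ∀ A : Set ℕ, A.Infinite → ¬ SatIn δ A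

end Pool.Agent.R547.LB
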