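import Pool.Agent.R547.LB.Stm

/-!
# The reduction for small quotas
-/

namespace Pool.Agent.R547.LB

namespace LobA

open Finset

variable {τ : Type} [DecidableEq τ]

theorem off_eq_true {x : τ} {t : τ × τ × τ} :
    off x t = true ↔ x ≠ t.1 ∧ x ≠ t.2.1 ∧ x ≠ t.2.2 := by
  unfold off
  simp [and_assoc]

theorem off_eq_false {x : τ} {t : τ × τ × τ} :
    off x t = false ↔ x = t.1 ∨ x = t.2.1 ∨ x = t.2.2 := by
  unfold off
  by_cases h1 : x = t.1 <;> by_cases h2 : x = t.2.1 <;> by_cases h3 : x = t.2.2 <;>
    simp [h1, h2, h3]

theorem core (V : List τ) (H : List (τ × τ × τ)) (α β K k : ℕ) (hV : V.Nodup) (hH : H.Nodup)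
    (hm : ∀ t ∈ H, t.1 ∈ V ∧ t.2.1 ∈ V ∧ t.2.2 ∈ V) (hk : k < V.length)
    (X : Fin V.length → Fin (H.length + α + β) → Bool)
    (h1 : ∀ i j (hj : j.1 < H.length), X i j = off (V.get i) (H.get ⟨j.1, hj⟩))
    (h2 : ∀ i j, H.length ≤ j.1 → j.1 < H.length + α → X i j = true)
    (h3 : ∀ i j, H.length + α ≤ j.1 → X i j = false) :
    Lobby X k (K + α) ↔ Dense H k K := by
  classical
  have hVinj : Function.Injective V.get := List.nodup_iff_injective_get.1 hV
  have hHinj : Function.Injective H.get := List.nodup_iff_injective_get.1 hH
  let c : Fin H.length → Fin (H.length + α + β) := fun j => ⟨j.1, by omega⟩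
  let d : Fin α → Fin (H.length + α + β) := fun j => ⟨H.length + j.1, by omega⟩
  have hc : Function.Injective c := by
    intro a b hab
    have := congrArg Fin.val hab
    exact Fin.ext this
  have hd : Function.Injective d := by
    intro a b hab
    have h := congrArg Fin.val hab
    simp only [d] at h
    exact Fin.ext (by omega)
  let Q : Finset τ → Finset (Fin H.length) := fun S =>
    univ.filter (fun j => H.get j ∈ S ×ˢ S ×ˢ S)
  have hQ : ∀ S, (Q S).image H.get = H.toFinset ∩ S ×ˢ S ×ˢ S := by
    intro S
    ext t
    simp only [Q, mem_image, mem_filter, mem_univ, true_and, mem_inter, List.mem_toFinset]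
    constructor
    · rintro ⟨j, hj, rfl⟩
      exact ⟨List.get_mem _ _, hj⟩
    · rintro ⟨ht, hS⟩
      obtain ⟨j, rfl⟩ := List.get_of_mem ht
      exact ⟨j, hS, rfl⟩
  have hQc : ∀ S, (Q S).card = (H.toFinset ∩ S ×ˢ S ×ˢ S).card := by
    intro S
    rw [← hQ S, card_image_of_injective _ hHinj]
  have hcd : ∀ S, ((Q S).image c ∪ univ.image d).card = (Q S).card + α := by
    intro S
    rw [card_union_of_disjoint, card_image_of_injective _ hc, card_image_of_injective _ hd,
      card_univ, Fintype.card_fin]
    rw [disjoint_left]
    intro x hx hx'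
    obtain ⟨a, -, rfl⟩ := mem_image.1 hx
    obtain ⟨b, -, hb⟩ := mem_image.1 hx'
    have h := congrArg Fin.val hb
    simp only [c, d] at h
    have := a.2
    omega
  constructor
  · rintro ⟨Y, hYk, hYz⟩
    refine ⟨(univ.filter (fun i => Y i ≠ X i)).image V.get, card_image_le.trans hYk, ?_⟩
    set S := (univ.filter (fun i => Y i ≠ X i)).image V.get with hS
    have hnew : ∃ i, Y i = X i := by
      by_contra hcon
      push Not at hcon
      have : (univ.filter (fun i => Y i ≠ X i)) = univ := by
        ext i
        simp [hcon i]
      rw [this, card_univ, Fintype.card_fin] at hYk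
      omega
    obtain ⟨i0, hi0⟩ := hnew
    have hsub : (univ.filter (fun j => ∀ i, Y i j = true)) ⊆ (Q S).image c ∪ univ.image d := by
      intro j hj
      have hj' : ∀ i, Y i j = true := (mem_filter.1 hj).2
      rw [mem_union]
      rcases lt_or_ge j.1 H.length with hlt | hge
      · left
        refine mem_image.2 ⟨⟨j.1, hlt⟩, ?_, Fin.ext rfl⟩
        have hin : ∀ x ∈ V, off x (H.get ⟨j.1, hlt⟩) = false → x ∈ S := by
          intro x hx hoff
          obtain ⟨i, rfl⟩ := List.get_of_mem hx
          refine mem_image.2 ⟨i, mem_filter.2 ⟨mem_univ _, ?_⟩, rfl⟩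
          intro hYX
          have h4 := h1 i j hlt
          rw [hoff, ← hYX, hj' i] at h4
          exact absurd h4 (by decide)
        obtain ⟨m1, m2, m3⟩ := hm _ (List.get_mem H ⟨j.1, hlt⟩)
        refine mem_filter.2 ⟨mem_univ _, mem_product.2 ⟨?_, mem_product.2 ⟨?_, ?_⟩⟩⟩
        · exact hin _ m1 (off_eq_false.2 (Or.inl rfl))
        · exact hin _ m2 (off_eq_false.2 (Or.inr (Or.inl rfl)))
        · exact hin _ m3 (off_eq_false.2 (Or.inr (Or.inr rfl)))
      · right
        rcases lt_or_ge j.1 (H.length + α) with hlt' | hge'
        · refine mem_image.2 ⟨⟨j.1 - H.length, by omega⟩, mem_univ _, ?_⟩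
          apply Fin.ext
          simp only [d]
          omega
        · exfalso
          have h4 := h3 i0 j hge'
          rw [← hi0, hj' i0] at h4
          exact absurd h4 (by decide)
    have h5 := hYz.trans (card_le_card hsub)
    rw [hcd, hQc] at h5
    omega
  · rintro ⟨S, hSk, hSK⟩
    refine ⟨fun i j => if V.get i ∈ S then true else X i j, ?_, ?_⟩
    · have hsub : (univ.filter (fun i => (fun j => if V.get i ∈ S then true else X i j) ≠ X i)) ⊆
          univ.filter (fun i => V.get i ∈ S) := by
        intro i hi
        refine mem_filter.2 ⟨mem_univ _, ?_⟩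
        by_contra hn
        apply (mem_filter.1 hi).2
        funext j
        exact if_neg hn
      refine (card_le_card hsub).trans (le_trans ?_ hSk)
      refine card_le_card_of_injOn V.get ?_ hVinj.injOn
      intro i hi
      exact (mem_filter.1 (mem_coe.1 hi)).2
    · have hsub : (Q S).image c ∪ univ.image d ⊆
          univ.filter (fun j => ∀ i, (if V.get i ∈ S then true else X i j) = true) := by
        intro j hj
        refine mem_filter.2 ⟨mem_univ _, ?_⟩
        intro i
        split_ifs with hiS
        · rfl
        rcases mem_union.1 hj with hj | hj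
        · obtain ⟨a, ha, rfl⟩ := mem_image.1 hj
          have ha' := (mem_filter.1 ha).2
          rw [mem_product, mem_product] at ha'
          rw [h1 i (c a) a.2]
          refine off_eq_true.2 ⟨?_, ?_, ?_⟩
          · intro h
            exact hiS (h ▸ ha'.1)
          · intro h
            exact hiS (h ▸ ha'.2.1)
          · intro h
            exact hiS (h ▸ ha'.2.2)
        · obtain ⟨a, -, rfl⟩ := mem_image.1 hj
          refine h2 i (d a) ?_ ?_
          · simp only [d]
            omega
          · simp only [d]
            have := a.2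
            omega
      have h5 := card_le_card hsub
      rw [hcd, hQc] at h5
      refine le_trans ?_ h5
      omega

theorem row_len (V : List τ) (H : List (τ × τ × τ)) (α β k : ℕ) :
    ∀ r ∈ (instA V H α β k).1, r.length = H.length + α + β := by
  intro r hr
  unfold instA at hr
  obtain ⟨u, -, rfl⟩ := List.mem_map.1 hr
  simp [add_assoc]

theorem len (V : List τ) (H : List (τ × τ × τ)) (α β k : ℕ) :
    (instA V H α β k).1.length = V.length := by
  simp [instA]

theorem issues_eq (V : List τ) (H : List (τ × τ × τ)) (α β k : ℕ) (hV : 0 < V.length) :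
    issues (instA V H α β k).1 = H.length + α + β := by
  unfold issues
  cases V with
  | nil => simp at hV
  | cons a V => simp [instA, add_assoc]

theorem main (z : ℕ → ℕ) (V : List τ) (H : List (τ × τ × τ))
    (α β K k : ℕ) (hV : V.Nodup) (hH : H.Nodup)
    (hm : ∀ t ∈ H, t.1 ∈ V ∧ t.2.1 ∈ V ∧ t.2.2 ∈ V) (hk : k < V.length)
    (hz : z (H.length + α + β) = K + α) :
    OLD z (instA V H α β k) ↔ Dense H k K := by
  have hV0 : 0 < V.length := by omega
  have hl := len V H α β k
  have hi := issues_eq V H α β k hV0
  have hI2 : (instA V H α β k).2 = k := rfl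
  have hgen : ∀ (n m : ℕ) (hn : n = V.length) (hm' : m = H.length + α + β),
      (Lobby (fun (i : Fin n) (j : Fin m) =>
        ((instA V H α β k).1.getD i.1 []).getD j.1 false) k (K + α) ↔ Dense H k K) := by
    intro n m hn hm'
    subst hn hm'
    refine core V H α β K k hV hH hm hk _ ?_ ?_ ?_
    · intro i j hj
      have hi' : i.1 < (V.map (fun u => H.map (fun t => off u t) ++ List.replicate α true ++
        List.replicate β false)).length := by simp
      simp only [instA]
      rw [List.getD_eq_getElem _ _ hi', List.getElem_map, List.getD_eq_getElem _ _ (by simp; omega),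
        List.getElem_append_left (by simp; omega), List.getElem_append_left (by simpa using hj),
        List.getElem_map]
      rfl
    · intro i j hj1 hj2
      have hi' : i.1 < (V.map (fun u => H.map (fun t => off u t) ++ List.replicate α true ++
        List.replicate β false)).length := by simp
      simp only [instA]
      rw [List.getD_eq_getElem _ _ hi', List.getElem_map, List.getD_eq_getElem _ _ (by simp; omega),
        List.getElem_append_left (by simp; omega), List.getElem_append_right (by simpa using hj1),
        List.getElem_replicate]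
    · intro i j hj1
      have hi' : i.1 < (V.map (fun u => H.map (fun t => off u t) ++ List.replicate α true ++
        List.replicate β false)).length := by simp
      simp only [instA]
      rw [List.getD_eq_getElem _ _ hi', List.getElem_map, List.getD_eq_getElem _ _ (by simp; omega),
        List.getElem_append_right (by simpa using hj1), List.getElem_replicate]
  have hfun : (fun (i : Fin (instA V H α β k).1.length) (j : Fin (issues (instA V H α β k).1)) =>
      ((instA V H α β k).1.get i).getD j.1 false) =
      (fun i j => ((instA V H α β k).1.getD i.1 []).getD j.1 false) := by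
    funext i j
    rw [List.getD_eq_getElem _ _ i.2]
    rfl
  have hz' : z (issues (instA V H α β k).1) = K + α := by rw [hi, hz]
  unfold OLD
  rw [hfun, hI2, hz', hgen _ _ hl hi]
  constructor
  · exact fun h => h.2.2.2
  · intro h
    refine ⟨?_, ?_, ?_, h⟩
    · intro h0
      rw [h0] at hl
      simp at hl
      omega
    · intro r hr
      rw [hi]
      exact row_len V H α β k r hr
    · rw [hl]
      omega

end LobA

/-- LOBA: the reduction for small quotas. -/
theorem t_A : StmA := by
  intro τ _ z V H α β K k hV hH hm hk hz
  exact LobA.main z V H α β K k hV hH hm hk hz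

end Pool.Agent.R547.LB
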