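import Pool.Agent.R547.LB.Stm

/-!
# LOBB: lobbying instances with triples as voters
-/

namespace Pool.Agent.R547.LB

namespace LobB

variable {τ : Type} [DecidableEq τ]

/-- one row -/
def row (V : List τ) (α β : ℕ) (t : τ × τ × τ) : List Bool :=
  V.map (fun u => off u t) ++ List.replicate α true ++ List.replicate β false

theorem row_length (V : List τ) (α β : ℕ) (t : τ × τ × τ) :
    (row V α β t).length = V.length + α + β := by
  simp [row, Nat.add_assoc]

theorem row_lo (V : List τ) (α β : ℕ) (t : τ × τ × τ) (j : ℕ) (h : j < V.length) :
    (row V α β t).getD j false = off V[j] t := by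
  simp [row, List.getD_eq_getElem?_getD, List.getElem?_append, h]

theorem row_mid (V : List τ) (α β : ℕ) (t : τ × τ × τ) (j : ℕ) (h : V.length ≤ j)
    (h2 : j < V.length + α) : (row V α β t).getD j false = true := by
  have h3 : ¬ j < V.length := by omega
  have h4 : j - V.length < α := by omega
  simp [row, List.getD_eq_getElem?_getD, List.getElem?_append, h2, h3, h4, List.getElem?_replicate]

theorem row_hi (V : List τ) (α β : ℕ) (t : τ × τ × τ) (j : ℕ) (h : V.length + α ≤ j) :
    (row V α β t).getD j false = false := by
  have h3 : ¬ j < V.length + α := by omega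
  simp only [row, List.getD_eq_getElem?_getD, List.getElem?_append, List.length_append,
    List.length_map, List.length_replicate, h3, if_false, List.getElem?_replicate]
  split_ifs <;> rfl

theorem lobby_cast {n n' m m' : ℕ} (hn : n = n') (hm : m = m') (f : ℕ → ℕ → Bool) (k z : ℕ) :
    Lobby (fun (i : Fin n) (j : Fin m) => f i j) k z ↔
      Lobby (fun (i : Fin n') (j : Fin m') => f i j) k z := by
  subst hn
  subst hm
  rfl

theorem old_iff (z : ℕ → ℕ) (V : List τ) (H : List (τ × τ × τ)) (α β K : ℕ) (hK : 1 ≤ K)
    (hKH : K ≤ H.length) :
    OLD z (instB V H α β (H.length - K)) ↔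
      Lobby (fun (i : Fin H.length) (j : Fin (V.length + α + β)) =>
        (row V α β (H.get i)).getD j false) (H.length - K) (z (V.length + α + β)) := by
  have hne : H ≠ [] := by
    rintro rfl
    simp at hKH
    omega
  have hI : (instB V H α β (H.length - K)).1 = H.map (row V α β) := rfl
  have hlen : (instB V H α β (H.length - K)).1.length = H.length := by
    rw [hI, List.length_map]
  have hiss : issues (instB V H α β (H.length - K)).1 = V.length + α + β := by
    rw [hI]
    cases H with
    | nil => exact absurd rfl hne
    | cons a l => simp [issues, row_length]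
  have key : Lobby (fun (i : Fin (instB V H α β (H.length - K)).1.length)
      (j : Fin (issues (instB V H α β (H.length - K)).1)) =>
        ((instB V H α β (H.length - K)).1.get i).getD j.1 false) (H.length - K)
        (z (issues (instB V H α β (H.length - K)).1)) ↔
      Lobby (fun (i : Fin H.length) (j : Fin (V.length + α + β)) =>
        (row V α β (H.get i)).getD j false) (H.length - K) (z (V.length + α + β)) := by
    have h1 := lobby_cast hlen hiss
      (fun i j => ((H.map (row V α β)).getD i []).getD j false) (H.length - K)
      (z (issues (instB V H α β (H.length - K)).1))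
    have h2 : (fun (i : Fin (instB V H α β (H.length - K)).1.length)
        (j : Fin (issues (instB V H α β (H.length - K)).1)) =>
          ((instB V H α β (H.length - K)).1.get i).getD j.1 false) =
        fun i j => ((H.map (row V α β)).getD i.1 []).getD j.1 false := by
      funext i j
      have hi : i.1 < (H.map (row V α β)).length := i.2
      rw [List.getD_eq_getElem _ _ hi]
      rfl
    have h3 : (fun (i : Fin H.length) (j : Fin (V.length + α + β)) =>
        ((H.map (row V α β)).getD i.1 []).getD j.1 false) =
        fun i j => (row V α β (H.get i)).getD j.1 false := by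
      funext i j
      have hi : i.1 < (H.map (row V α β)).length := by rw [List.length_map]; exact i.2
      rw [List.getD_eq_getElem _ _ hi]
      simp
    rw [h2, h1, h3, hiss]
  constructor
  · rintro ⟨-, -, -, h⟩
    exact key.1 h
  · intro h
    refine ⟨?_, ?_, ?_, key.2 h⟩
    · rw [hI]
      simpa using hne
    · intro r hr
      rw [hiss]
      rw [hI, List.mem_map] at hr
      obtain ⟨t, -, rfl⟩ := hr
      exact row_length V α β t
    · rw [hlen]
      exact Nat.sub_le _ _

theorem off_false {x : τ} {t : τ × τ × τ} :
    off x t = false ↔ x = t.1 ∨ x = t.2.1 ∨ x = t.2.2 := by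
  simp [off]
  tauto

end LobB

open LobB in
theorem t_B : StmB := by
  intro τ _ z V H α β K k hV hH hHV hK hKH hz
  rw [old_iff z V H α β K hK hKH]
  set n := V.length with hn
  set m := n + α + β with hm
  set X : Fin H.length → Fin m → Bool := fun i j => (row V α β (H.get i)).getD j false with hX
  have hcard : ∀ Y : Fin H.length → Fin m → Bool,
      (Finset.univ.filter (fun j => ∀ i, Y i j = true)).card +
        (Finset.univ.filter (fun j => ¬ ∀ i, Y i j = true)).card = m := by
    intro Y
    rw [Finset.card_filter_add_card_filter_not]
    simp
  have hinj : Function.Injective H.get := List.nodup_iff_injective_get.1 hH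
  have hinjV : Function.Injective V.get := List.nodup_iff_injective_get.1 hV
  constructor
  · rintro ⟨Y, hD, hP⟩
    have hDR : (Finset.univ.filter (fun i => Y i ≠ X i)).card +
        (Finset.univ.filter (fun i => ¬ Y i ≠ X i)).card = H.length := by
      rw [Finset.card_filter_add_card_filter_not]
      simp
    set R := Finset.univ.filter (fun i => ¬ Y i ≠ X i) with hR
    have hRK : K ≤ R.card := by omega
    have hRne : R.Nonempty := by
      rw [← Finset.card_pos]; omega
    have hmemR : ∀ i, i ∈ R → Y i = X i := by
      intro i hi
      rw [hR, Finset.mem_filter] at hi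
      exact not_not.1 hi.2
    set S : Finset τ := R.biUnion (fun i => {(H.get i).1, (H.get i).2.1, (H.get i).2.2}) with hS
    have hSmem : ∀ x, x ∈ S ↔ ∃ i ∈ R, x = (H.get i).1 ∨ x = (H.get i).2.1 ∨ x = (H.get i).2.2 := by
      intro x
      simp [hS]
    have hSV : ∀ x ∈ S, x ∈ V := by
      intro x hx
      obtain ⟨i, -, hi⟩ := (hSmem x).1 hx
      have := hHV (H.get i) (List.get_mem _ _)
      rcases hi with rfl | rfl | rfl
      · exact this.1
      · exact this.2.1
      · exact this.2.2
    refine ⟨S, ?_, ?_⟩
    · have h1 := hcard Y
      set F := Finset.univ.filter (fun j => ¬ ∀ i, Y i j = true) with hF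
      have hlt : ∀ x : S, V.idxOf x.1 < m := fun x => by
        have := List.idxOf_lt_length_iff.2 (hSV x.1 x.2)
        omega
      let g : S ⊕ Fin β → F := Sum.elim
        (fun x => ⟨⟨V.idxOf x.1, hlt x⟩, by
          rw [hF, Finset.mem_filter]
          refine ⟨Finset.mem_univ _, fun hall => ?_⟩
          obtain ⟨i, hi, hxi⟩ := (hSmem x.1).1 x.2
          have h2 := hall i
          rw [hmemR i hi] at h2
          have h3 : X i ⟨V.idxOf x.1, hlt x⟩ = false := by
            have h4 := List.idxOf_lt_length_iff.2 (hSV x.1 x.2)
            show (row V α β (H.get i)).getD (V.idxOf x.1) false = false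
            rw [row_lo V α β _ _ h4, List.getElem_idxOf]
            exact off_false.2 hxi
          rw [h3] at h2
          exact absurd h2 (by simp)⟩)
        (fun b => ⟨⟨n + α + b.1, by have := b.2; omega⟩, by
          rw [hF, Finset.mem_filter]
          refine ⟨Finset.mem_univ _, fun hall => ?_⟩
          obtain ⟨i, hi⟩ := hRne
          have h2 := hall i
          rw [hmemR i hi] at h2
          have h3 : X i ⟨n + α + b.1, by have := b.2; omega⟩ = false :=
            row_hi V α β _ _ (Nat.le_add_right _ _)
          rw [h3] at h2
          exact absurd h2 (by simp)⟩)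
      have hg : Function.Injective g := by
        rintro (x | b) (y | c) hxy
        · have h2 : V.idxOf x.1 = V.idxOf y.1 := congrArg (fun u => u.1.1) hxy
          have h4 := List.idxOf_lt_length_iff.2 (hSV x.1 x.2)
          have h5 := List.idxOf_lt_length_iff.2 (hSV y.1 y.2)
          have h6 : x.1 = y.1 := by
            rw [← List.getElem_idxOf h4, ← List.getElem_idxOf h5]
            simp only [h2]
          rw [Subtype.ext h6]
        · have h2 : V.idxOf x.1 = n + α + c.1 := congrArg (fun u => u.1.1) hxy
          have h4 := List.idxOf_lt_length_iff.2 (hSV x.1 x.2)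
          omega
        · have h2 : n + α + b.1 = V.idxOf y.1 := congrArg (fun u => u.1.1) hxy
          have h4 := List.idxOf_lt_length_iff.2 (hSV y.1 y.2)
          omega
        · have h2 : n + α + b.1 = n + α + c.1 := congrArg (fun u => u.1.1) hxy
          have h3 : b = c := Fin.ext (by omega)
          rw [h3]
      have h2 := Fintype.card_le_of_injective g hg
      rw [Fintype.card_sum, Fintype.card_fin, Fintype.card_coe, Fintype.card_coe] at h2
      omega
    · refine hRK.trans ?_
      apply Finset.card_le_card_of_injOn (fun i => H.get i)
      · intro i hi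
        have hi' : i ∈ R := hi
        simp only [Finset.coe_inter, Set.mem_inter_iff, Finset.mem_coe, List.mem_toFinset,
          Finset.mem_product]
        refine ⟨List.get_mem _ _, ?_, ?_, ?_⟩
        · exact (hSmem _).2 ⟨i, hi', Or.inl rfl⟩
        · exact (hSmem _).2 ⟨i, hi', Or.inr (Or.inl rfl)⟩
        · exact (hSmem _).2 ⟨i, hi', Or.inr (Or.inr rfl)⟩
      · intro i _ j _ hij
        exact hinj hij
  · rintro ⟨S, hSk, hSK⟩
    set G : Fin H.length → Prop := fun i => H.get i ∈ S ×ˢ S ×ˢ S with hG
    refine ⟨fun i => if H.get i ∈ S ×ˢ S ×ˢ S then X i else fun _ => true, ?_, ?_⟩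
    · have h1 : (Finset.univ.filter (fun i : Fin H.length => H.get i ∈ S ×ˢ S ×ˢ S)).card +
          (Finset.univ.filter (fun i : Fin H.length => ¬ H.get i ∈ S ×ˢ S ×ˢ S)).card =
            H.length := by
        rw [Finset.card_filter_add_card_filter_not]
        simp
      have h2 : (H.toFinset ∩ S ×ˢ S ×ˢ S).card ≤
          (Finset.univ.filter (fun i : Fin H.length => H.get i ∈ S ×ˢ S ×ˢ S)).card := by
        refine le_trans (Finset.card_le_card (t := (Finset.univ.filter
          (fun i : Fin H.length => H.get i ∈ S ×ˢ S ×ˢ S)).image H.get) ?_) Finset.card_image_le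
        intro t ht
        rw [Finset.mem_inter, List.mem_toFinset] at ht
        obtain ⟨i, hi⟩ := List.get_of_mem ht.1
        rw [Finset.mem_image]
        exact ⟨i, by rw [Finset.mem_filter, hi]; exact ⟨Finset.mem_univ _, ht.2⟩, hi⟩
      have h3 : (Finset.univ.filter (fun i : Fin H.length =>
          (if H.get i ∈ S ×ˢ S ×ˢ S then X i else fun _ => true) ≠ X i)).card ≤
          (Finset.univ.filter (fun i : Fin H.length => ¬ H.get i ∈ S ×ˢ S ×ˢ S)).card := by
        apply Finset.card_le_card
        intro i hi
        rw [Finset.mem_filter] at hi ⊢
        refine ⟨hi.1, fun h4 => hi.2 ?_⟩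
        rw [if_pos h4]
      refine le_trans h3 ?_
      omega
    · have h1 := hcard (fun i => if H.get i ∈ S ×ˢ S ×ˢ S then X i else fun _ => true)
      set F := Finset.univ.filter (fun j : Fin m => ¬ ∀ i,
        (if H.get i ∈ S ×ˢ S ×ˢ S then X i else fun _ => true) j = true) with hF
      have hsub : F ⊆ (Finset.univ.filter (fun j : Fin m => ∃ h : j.1 < V.length,
          V.get ⟨j.1, h⟩ ∈ S)) ∪ Finset.univ.filter (fun j : Fin m => n + α ≤ j.1) := by
        intro j hj
        rw [hF, Finset.mem_filter] at hj
        obtain ⟨i, hi⟩ := not_forall.1 hj.2
        rw [Finset.mem_union, Finset.mem_filter, Finset.mem_filter]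
        by_cases hG : H.get i ∈ S ×ˢ S ×ˢ S
        · rw [if_pos hG] at hi
          have hXf : X i j = false := by
            cases h : X i j
            · rfl
            · exact absurd h hi
          by_cases hj1 : j.1 < V.length
          · left
            refine ⟨Finset.mem_univ _, hj1, ?_⟩
            have h2 : off V[j.1] (H.get i) = false := by
              rw [← row_lo V α β (H.get i) j.1 hj1]
              exact hXf
            rw [Finset.mem_product, Finset.mem_product] at hG
            rcases off_false.1 h2 with h3 | h3 | h3
            · show V[j.1] ∈ S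
              rw [h3]; exact hG.1
            · show V[j.1] ∈ S
              rw [h3]; exact hG.2.1
            · show V[j.1] ∈ S
              rw [h3]; exact hG.2.2
          · right
            refine ⟨Finset.mem_univ _, ?_⟩
            by_contra h2
            have h3 : X i j = true := row_mid V α β (H.get i) j.1 (by omega) (by omega)
            rw [h3] at hXf
            exact absurd hXf (by simp)
        · rw [if_neg hG] at hi
          exact absurd rfl hi
      have hA : (Finset.univ.filter (fun j : Fin m => ∃ h : j.1 < V.length,
          V.get ⟨j.1, h⟩ ∈ S)).card ≤ S.card := by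
        rcases Nat.eq_zero_or_pos V.length with h0 | h0
        · have : (Finset.univ.filter (fun j : Fin m => ∃ h : j.1 < V.length,
              V.get ⟨j.1, h⟩ ∈ S)) = ∅ := by
            rw [Finset.filter_eq_empty_iff]
            rintro j - ⟨h, -⟩
            omega
          rw [this]
          simp
        · apply Finset.card_le_card_of_injOn (fun j => V.get ⟨min j.1 (V.length - 1), by omega⟩)
          · intro j hj
            simp only [Finset.coe_filter, Finset.mem_univ, true_and, Set.mem_setOf_eq] at hj
            obtain ⟨h, h2⟩ := hj
            have h3 : min j.1 (V.length - 1) = j.1 := by omega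
            simp only [h3]
            exact h2
          · intro j hj j' hj' hjj
            simp only [Finset.coe_filter, Finset.mem_univ, true_and, Set.mem_setOf_eq] at hj hj'
            obtain ⟨h, -⟩ := hj
            obtain ⟨h', -⟩ := hj'
            have h4 := congrArg Fin.val (hinjV hjj)
            simp only at h4
            apply Fin.ext
            omega
      have hB : (Finset.univ.filter (fun j : Fin m => n + α ≤ j.1)).card ≤ β := by
        have : (Finset.univ.filter (fun j : Fin m => n + α ≤ j.1)).card ≤
            (Finset.range β).card := by
          apply Finset.card_le_card_of_injOn (fun j => j.1 - (n + α))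
          · intro j hj
            simp only [Finset.coe_filter, Finset.mem_univ, true_and, Set.mem_setOf_eq] at hj
            have := j.2
            simp only [Finset.coe_range, Set.mem_Iio]
            omega
          · intro j hj j' hj' hjj
            simp only [Finset.coe_filter, Finset.mem_univ, true_and, Set.mem_setOf_eq] at hj hj'
            simp only at hjj
            apply Fin.ext
            omega
        rwa [Finset.card_range] at this
      have h2 := (Finset.card_le_card hsub).trans (Finset.card_union_le _ _)
      have h1' : (Finset.univ.filter (fun j : Fin m => ∀ i,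
        (if H.get i ∈ S ×ˢ S ×ˢ S then X i else fun _ => true) j = true)).card + F.card = m := h1
      show z m ≤ (Finset.univ.filter (fun j : Fin m => ∀ i,
        (if H.get i ∈ S ×ˢ S ×ˢ S then X i else fun _ => true) j = true)).card
      omega

end Pool.Agent.R547.LB
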