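import Pool.Agent.R547.LB.Stm2
import Pool.Agent.H671R2.PolyAuto

/-!
# The many-scales algorithm is polynomial on padded inputs
-/

namespace Pool.Agent.R547.LB

open Pool.Agent.NPC Turing

/-- the algorithm is polynomial, general form -/
def StmPolyGen : Prop := ∀ (d : List (List Bool) × ℕ → Bool), Poly d →
  ∀ {α : Type} [TEnc α] (φ : α → List Clause3) (k A : α → ℕ), Poly φ → UPoly k → UPoly A →
    Poly (fun a => solve d (φ a) (k a) (A a))

section

variable {α : Type} [TEnc α]

theorem pC_two_pow {n : α → ℕ} (hn : UPoly n) : NPC.Poly (fun a => 2 ^ (n a)) := by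
  have h1 : NPC.Poly (fun a => (List.replicate (n a) ()).map (fun _ => false)) :=
    NPC.Poly.map (F := fun _ _ => false) hn (NPC.Poly.const false)
  refine (NPC.Poly.valBits (NPC.Poly.append h1 (NPC.Poly.const [true]))).congr fun a => ?_
  have h2 : ∀ k, valB (List.replicate k false ++ [true]) = 2 ^ k := by
    intro k
    rw [valB_append]
    have h3 : valB (List.replicate k false) = 0 := by
      induction k with
      | zero => rfl
      | succ k ih => simp [List.replicate_succ, valB, ih]
    rw [h3]
    simp [valB]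
  rw [List.map_replicate, h2]

/-- removal of duplicates by a right fold -/
def dd (l : List ℕ) : List ℕ :=
  l.foldr (fun b s => bif decide (b ∈ s) then s else b :: s) []

theorem dd_eq (l : List ℕ) : dd l = l.dedup := by
  induction l with
  | nil => rfl
  | cons b l ih =>
    have h : dd (b :: l) = bif decide (b ∈ dd l) then dd l else b :: dd l := rfl
    rw [h, ih]
    by_cases hb : b ∈ l.dedup
    · rw [List.dedup_cons_of_mem' hb]
      simp [hb]
    · rw [List.dedup_cons_of_notMem' hb]
      simp [hb]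

theorem sz_dd_le (l : List ℕ) : sz (dd l) ≤ sz l := by
  induction l with
  | nil => exact le_rfl
  | cons b l ih =>
    have h : dd (b :: l) = bif decide (b ∈ dd l) then dd l else b :: dd l := rfl
    rw [h]
    by_cases hb : b ∈ dd l
    · simp [hb]
      omega
    · simp [hb]
      omega

theorem pC_dedup {l : α → List ℕ} (hl : Poly l) : Poly (fun a => (l a).dedup) := by
  obtain ⟨r, hr⟩ := hl.sz_le
  refine (NPC.Poly.foldr (s := fun _ => ([] : List ℕ))
    (F := fun _ b s => bif decide (b ∈ s) then s else b :: s) hl (NPC.Poly.const _)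
    (NPC.Poly.cond (NPC.Poly.decide_mem (NPC.Poly.fst (NPC.Poly.snd NPC.Poly.id)) (NPC.Poly.snd (NPC.Poly.snd NPC.Poly.id)))
      (NPC.Poly.snd (NPC.Poly.snd NPC.Poly.id))
      (NPC.Poly.cons (NPC.Poly.fst (NPC.Poly.snd NPC.Poly.id)) (NPC.Poly.snd (NPC.Poly.snd NPC.Poly.id)))) r ?_).congr
      fun a => ?_
  · intro a k _
    exact (sz_dd_le _).trans ((NPC.Poly.sz_drop_le _ _).trans (hr a))
  · exact dd_eq (l a)

theorem pC_numVars {φ : α → List Clause3} (hφ : Poly φ) : UPoly (fun a => numVars (φ a)) := by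
  have h1 : Poly (fun a => varsOf (φ a)) := by
    unfold varsOf
    fun_prop
  exact UPoly.length (pC_dedup h1)

end

theorem t_PolyC (hG : StmPolyGen) : StmPolyC := by
  intro d C hd
  let X := {x : (List Clause3 × List Unit × List Unit) × List Unit // 2 ^ expo x.1 ≤ x.2.length}
  have hx : Poly (fun x : X => x.1) := Poly.val _
  have hφ : Poly (fun x : X => x.1.1.1) := Poly.fst (Poly.fst hx)
  have hk : UPoly (fun x : X => x.1.1.2.1.length) := UPoly.length (Poly.fst (Poly.snd (Poly.fst hx)))
  have hs : UPoly (fun x : X => x.1.1.2.2.length) := UPoly.length (Poly.snd (Poly.snd (Poly.fst hx)))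
  have hN : UPoly (fun x : X => numVars x.1.1.1) := pC_numVars hφ
  have hNk : UPoly (fun x : X => numVars x.1.1.1 / x.1.1.2.1.length) :=
    UPoly.of_le (Poly.div hN.toPoly hk.toPoly) hN fun a => Nat.div_le_self _ _
  have hE : UPoly (fun x : X => expo x.1.1) := by
    unfold expo
    exact UPoly.add (UPoly.add hNk (UPoly.const 1)) hs
  have hCk : UPoly (fun x : X => C * x.1.1.2.1.length) := UPoly.mul (UPoly.const C) hk
  have hblk : UPoly (fun x : X => blk x.1.1.1 (C * x.1.1.2.1.length)) := by
    unfold blk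
    exact UPoly.add (UPoly.of_le (Poly.div hN.toPoly hCk.toPoly) hN fun a => Nat.div_le_self _ _)
      (UPoly.const 1)
  have hpad : UPoly (fun x : X => x.1.2.length) := UPoly.length (Poly.snd hx)
  -- the inner function
  have h1 : Poly (fun p : X × ℕ => p.1) := Poly.fst Poly.id
  have hm : UPoly (fun p : X × ℕ => min p.2 (expo p.1.1.1)) :=
    UPoly.of_le (Poly.min (Poly.snd Poly.id) (hE.toPoly.comp h1)) (hE.comp h1)
      fun a => min_le_right _ _
  have hA : UPoly (fun p : X × ℕ => 2 ^ min p.2 (expo p.1.1.1)) :=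
    UPoly.of_le (pC_two_pow hm) (hpad.comp h1) fun a =>
      (Nat.pow_le_pow_right (by norm_num) (min_le_right _ _)).trans a.1.2
  have hsol := hG d hd (fun p : X × ℕ => p.1.1.1.1) (fun p => C * p.1.1.1.2.1.length)
    (fun p => 2 ^ min p.2 (expo p.1.1.1)) (hφ.comp h1) (hCk.comp h1) hA
  unfold solveC
  refine Poly.any (p := fun (x : X) e =>
    decide (blk x.1.1.1 (C * x.1.1.2.1.length) ≤ min e (expo x.1.1)) &&
      solve d x.1.1.1 (C * x.1.1.2.1.length) (2 ^ min e (expo x.1.1)))
    (UPoly.range (UPoly.add hE (UPoly.const 1))) ?_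
  exact Poly.and (Poly.decide_le ((hblk.toPoly).comp h1) hm.toPoly) hsol

end Pool.Agent.R547.LB
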