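import Pool.Agent.R547.LB.Stm
import Pool.Agent.H671R2.PolyAuto

/-!
# LB-POLY: the algorithm is polynomial on padded inputs
-/

set_option autoImplicit false

namespace Pool.Agent.R547.LB

open Pool.Agent.NPC Turing

namespace PP

section Gen

variable {α β : Type} [TEnc α] [TEnc β]

theorem poly_replicate {n : α → ℕ} {b : α → β} (hn : UPoly n) (hb : NPC.Poly b) :
    NPC.Poly (fun a => List.replicate (n a) (b a)) :=
  (NPC.Poly.map (F := fun a _ => b a) hn (hb.comp (NPC.Poly.fst NPC.Poly.id))).congr fun a => by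
    rw [List.map_replicate]

theorem poly_two_pow {n : α → ℕ} (hn : UPoly n) : NPC.Poly (fun a => 2 ^ (n a)) :=
  (NPC.Poly.valBits (NPC.Poly.append (poly_replicate hn (NPC.Poly.const false)) (NPC.Poly.const [true]))).congr
    fun a => by rw [valB_replicate_false]; simp

theorem poly_dedup [DecidableEq β] {l : α → List β} (hl : NPC.Poly l) :
    NPC.Poly (fun a => (l a).dedup) := by
  obtain ⟨r, hr⟩ := hl.sz_le
  have key : ∀ l : List β, l.foldr (fun b s => if b ∈ s then s else b :: s) [] = l.dedup := by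
    intro l
    induction l with
    | nil => rfl
    | cons b l ih =>
      rw [List.foldr_cons, ih]
      by_cases h : b ∈ l
      · rw [List.dedup_cons_of_mem h, if_pos (List.mem_dedup.2 h)]
      · rw [List.dedup_cons_of_notMem h, if_neg (fun h' => h (List.mem_dedup.1 h'))]
  have hsz : ∀ l : List β, sz (l.dedup) ≤ sz l := by
    intro l
    induction l with
    | nil => simp
    | cons b l ih =>
      by_cases h : b ∈ l
      · rw [List.dedup_cons_of_mem h, sz_list_cons]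
        omega
      · rw [List.dedup_cons_of_notMem h, sz_list_cons, sz_list_cons]
        omega
  refine (NPC.Poly.foldr (s := fun _ => [])
    (F := fun _ b (s : List β) => if b ∈ s then s else b :: s)
    hl (NPC.Poly.const _) ?_ r ?_).congr fun a => key _
  · exact NPC.Poly.ite (p := fun p : α × β × List β => p.2.1 ∈ p.2.2)
      (NPC.Poly.decide_mem (NPC.Poly.fst (NPC.Poly.snd NPC.Poly.id))
        (NPC.Poly.snd (NPC.Poly.snd NPC.Poly.id)))
      (NPC.Poly.snd (NPC.Poly.snd NPC.Poly.id)) (NPC.Poly.cons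
      (NPC.Poly.fst (NPC.Poly.snd NPC.Poly.id)) (NPC.Poly.snd (NPC.Poly.snd NPC.Poly.id)))
  · intro a k _
    rw [key]
    have h1 := hsz ((l a).drop k)
    have h2 := NPC.Poly.sz_drop_le (l a) k
    have h3 := hr a
    omega

theorem idx_key [DecidableEq β] (v : β) : ∀ (l : List β) (k : ℕ),
    (((l.zipIdx k).filter (fun p => decide (p.1 = v))).head?).elim (k + l.length) (fun p => p.2) =
      k + l.idxOf v := by
  intro l
  induction l with
  | nil => intro k; simp
  | cons a l ih =>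
    intro k
    by_cases h : a = v
    · simp [List.zipIdx_cons, h]
    · have := ih (k + 1)
      rw [List.zipIdx_cons, List.filter_cons_of_neg (by simpa using h), List.length_cons,
        List.idxOf_cons_ne _ h]
      rw [show k + (l.length + 1) = k + 1 + l.length by ring, this]
      omega

theorem poly_idxOf [DecidableEq β] {l : α → List β} {v : α → β}
    (hl : NPC.Poly l) (hv : NPC.Poly v) : NPC.Poly (fun a => (l a).idxOf (v a)) := by
  have h : (fun a => (l a).idxOf (v a)) = fun a =>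
      ((((l a).zipIdx).filter (fun p => decide (p.1 = v a))).head?).elim (l a).length
        (fun p => p.2) := by
    funext a
    have := idx_key (v a) (l a) 0
    simp only [zero_add] at this
    exact this.symm
  rw [h]
  fun_prop

theorem poly_testBit {i k : α → ℕ} (hi : NPC.Poly i) (hk : NPC.Poly k) :
    NPC.Poly (fun a => (i a).testBit (k a)) := by
  refine (NPC.Poly.getD (NPC.Poly.natBits hi) hk (NPC.Poly.const false)).congr fun a => ?_
  rw [Nat.testBit_eq_inth]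
  simp [List.getI_eq_getElem?_getD, List.getD_eq_getElem?_getD]

theorem upoly_pow3 {n : α → ℕ} (hn : UPoly n) : UPoly (fun a => n a ^ 3) := by
  have h := UPoly.mul hn (UPoly.mul hn hn)
  refine NPC.Poly.congr h fun a => ?_
  congr 1
  ring

end Gen

section Alg

variable {α : Type} [TEnc α]

theorem poly_varsOf {φ : α → List Clause3} (hφ : NPC.Poly φ) : NPC.Poly (fun a => varsOf (φ a)) := by
  unfold varsOf
  fun_prop

theorem upoly_numVars {φ : α → List Clause3} (hφ : NPC.Poly φ) : UPoly (fun a => numVars (φ a)) :=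
  UPoly.length (poly_dedup (poly_varsOf hφ))

theorem poly_posV {φ : α → List Clause3} {v : α → ℕ} (hφ : NPC.Poly φ) (hv : NPC.Poly v) :
    NPC.Poly (fun a => posV (φ a) (v a)) :=
  poly_idxOf (poly_dedup (poly_varsOf hφ)) hv

theorem poly_blk {φ : α → List Clause3} {k : α → ℕ} (hφ : NPC.Poly φ) (hk : NPC.Poly k) :
    NPC.Poly (fun a => blk (φ a) (k a)) :=
  NPC.Poly.succ (NPC.Poly.div (upoly_numVars hφ).toPoly hk)

theorem poly_falsi {φ : α → List Clause3} {k : α → ℕ} {u : α → ℕ × ℕ} {l : α → ℕ × Bool}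
    (hφ : NPC.Poly φ) (hk : NPC.Poly k) (hu : NPC.Poly u) (hl : NPC.Poly l) :
    NPC.Poly (fun a => falsi (φ a) (k a) (u a) (l a)) := by
  have h1 := poly_posV hφ (NPC.Poly.fst hl)
  have h2 := poly_blk hφ hk
  have h3 := poly_testBit (NPC.Poly.snd hu) (NPC.Poly.mod h1 h2)
  unfold falsi
  exact NPC.Poly.and (NPC.Poly.decide_eq (NPC.Poly.div h1 h2) (NPC.Poly.fst hu))
    (NPC.Poly.not (NPC.Poly.decide_eq h3 (NPC.Poly.snd hl)))

theorem poly_litBad {φ : α → List Clause3} {k : α → ℕ}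
    {t : α → (ℕ × ℕ) × (ℕ × ℕ) × (ℕ × ℕ)} {l : α → ℕ × Bool}
    (hφ : NPC.Poly φ) (hk : NPC.Poly k) (ht : NPC.Poly t) (hl : NPC.Poly l) :
    NPC.Poly (fun a => litBad (φ a) (k a) (t a) (l a)) := by
  unfold litBad
  exact NPC.Poly.or (NPC.Poly.or (poly_falsi hφ hk (NPC.Poly.fst ht) hl)
    (poly_falsi hφ hk (NPC.Poly.fst (NPC.Poly.snd ht)) hl)) (poly_falsi hφ hk (NPC.Poly.snd (NPC.Poly.snd ht)) hl)

theorem poly_sameOK {u v : α → ℕ × ℕ} (hu : NPC.Poly u) (hv : NPC.Poly v) :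
    NPC.Poly (fun a => sameOK (u a) (v a)) := by
  unfold sameOK
  exact NPC.Poly.or (NPC.Poly.not (NPC.Poly.decide_eq (NPC.Poly.fst hu) (NPC.Poly.fst hv))) (NPC.Poly.decide_eq hu hv)

/-- the clause `c` is not made false -/
def clOK (φ : List Clause3) (k : ℕ) (t : (ℕ × ℕ) × (ℕ × ℕ) × (ℕ × ℕ)) (c : Clause3) : Bool :=
  !(litBad φ k t c.1 && litBad φ k t c.2.1 && litBad φ k t c.2.2)

theorem poly_clOK {φ : α → List Clause3} {k : α → ℕ}
    {t : α → (ℕ × ℕ) × (ℕ × ℕ) × (ℕ × ℕ)} {c : α → Clause3}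
    (hφ : NPC.Poly φ) (hk : NPC.Poly k) (ht : NPC.Poly t) (hc : NPC.Poly c) :
    NPC.Poly (fun a => clOK (φ a) (k a) (t a) (c a)) := by
  have h1 := poly_litBad hφ hk ht (NPC.Poly.fst hc)
  have h2 := poly_litBad hφ hk ht (NPC.Poly.fst (NPC.Poly.snd hc))
  have h3 := poly_litBad hφ hk ht (NPC.Poly.snd (NPC.Poly.snd hc))
  have h4 := NPC.Poly.not (NPC.Poly.and (NPC.Poly.and h1 h2) h3)
  exact h4

theorem poly_same3 {t : α → (ℕ × ℕ) × (ℕ × ℕ) × (ℕ × ℕ)} (ht : NPC.Poly t) :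
    NPC.Poly (fun a => sameOK (t a).1 (t a).2.1 && sameOK (t a).1 (t a).2.2 &&
      sameOK (t a).2.1 (t a).2.2) := by
  have h1 := poly_sameOK (NPC.Poly.fst ht) (NPC.Poly.fst (NPC.Poly.snd ht))
  have h2 := poly_sameOK (NPC.Poly.fst ht) (NPC.Poly.snd (NPC.Poly.snd ht))
  have h3 := poly_sameOK (NPC.Poly.fst (NPC.Poly.snd ht)) (NPC.Poly.snd (NPC.Poly.snd ht))
  exact NPC.Poly.and (NPC.Poly.and h1 h2) h3

theorem poly_allcl {φ : α → List Clause3} {k : α → ℕ}
    {t : α → (ℕ × ℕ) × (ℕ × ℕ) × (ℕ × ℕ)} (hφ : NPC.Poly φ) (hk : NPC.Poly k)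
    (ht : NPC.Poly t) :
    NPC.Poly (fun a => (φ a).all (fun c => clOK (φ a) (k a) (t a) c)) := by
  have hφ' : NPC.Poly (fun p : α × Clause3 => φ p.1) := hφ.comp (NPC.Poly.fst NPC.Poly.id)
  have hk' : NPC.Poly (fun p : α × Clause3 => k p.1) := hk.comp (NPC.Poly.fst NPC.Poly.id)
  have ht' : NPC.Poly (fun p : α × Clause3 => t p.1) := ht.comp (NPC.Poly.fst NPC.Poly.id)
  have hc : NPC.Poly (fun p : α × Clause3 => p.2) := NPC.Poly.snd NPC.Poly.id
  have h := poly_clOK hφ' hk' ht' hc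
  exact NPC.Poly.all (p := fun a c => clOK (φ a) (k a) (t a) c) hφ h

theorem compat_eq (φ : List Clause3) (k : ℕ) (t : (ℕ × ℕ) × (ℕ × ℕ) × (ℕ × ℕ)) :
    ((sameOK t.1 t.2.1 && sameOK t.1 t.2.2 && sameOK t.2.1 t.2.2) &&
      φ.all (fun c => clOK φ k t c)) = compat φ k t := by
  unfold compat clOK
  rfl

theorem poly_compat {φ : α → List Clause3} {k : α → ℕ}
    {t : α → (ℕ × ℕ) × (ℕ × ℕ) × (ℕ × ℕ)} (hφ : NPC.Poly φ) (hk : NPC.Poly k)
    (ht : NPC.Poly t) : NPC.Poly (fun a => compat (φ a) (k a) (t a)) :=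
  (NPC.Poly.and (poly_same3 ht) (poly_allcl hφ hk ht)).congr
    (fun a => compat_eq (φ a) (k a) (t a))

theorem poly_prod {β γ : Type} [TEnc β] [TEnc γ] {l : α → List β} {l' : α → List γ}
    (hl : NPC.Poly l) (hl' : NPC.Poly l') : NPC.Poly (fun a => (l a).product (l' a)) :=
  R671.poly_product hl hl'

theorem poly_verts {k A : α → ℕ} (hk : UPoly k) (hA : UPoly A) :
    NPC.Poly (fun a => verts (k a) (A a)) :=
  poly_prod hk.range hA.range

theorem poly_hyp {φ : α → List Clause3} {k A : α → ℕ} (hφ : NPC.Poly φ) (hk : UPoly k)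
    (hA : UPoly A) : NPC.Poly (fun a => hyp (φ a) (k a) (A a)) := by
  unfold hyp
  have hv := poly_verts hk hA
  exact NPC.Poly.filter (p := fun a t => compat (φ a) (k a) t) (poly_prod hv (poly_prod hv hv))
    (poly_compat (hφ.comp (NPC.Poly.fst NPC.Poly.id)) (hk.toPoly.comp (NPC.Poly.fst NPC.Poly.id))
      (NPC.Poly.snd NPC.Poly.id))

theorem poly_off {x : α → ℕ × ℕ} {t : α → (ℕ × ℕ) × (ℕ × ℕ) × (ℕ × ℕ)} (hx : NPC.Poly x)
    (ht : NPC.Poly t) : NPC.Poly (fun a => off (x a) (t a)) := by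
  unfold off
  exact NPC.Poly.not (NPC.Poly.or (NPC.Poly.or (NPC.Poly.decide_eq hx (NPC.Poly.fst ht))
    (NPC.Poly.decide_eq hx (NPC.Poly.fst (NPC.Poly.snd ht)))) (NPC.Poly.decide_eq hx (NPC.Poly.snd (NPC.Poly.snd ht))))

theorem poly_instA {V : α → List (ℕ × ℕ)} {H : α → List ((ℕ × ℕ) × (ℕ × ℕ) × (ℕ × ℕ))}
    {x y k : α → ℕ} (hV : NPC.Poly V) (hH : NPC.Poly H) (hx : UPoly x) (hy : UPoly y) (hk : NPC.Poly k) :
    NPC.Poly (fun a => instA (V a) (H a) (x a) (y a) (k a)) := by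
  unfold instA
  refine NPC.Poly.pair (NPC.Poly.map (F := fun a u => (H a).map (fun t => off u t) ++
    List.replicate (x a) true ++ List.replicate (y a) false) hV ?_) hk
  have hH' : NPC.Poly (fun p : α × (ℕ × ℕ) => H p.1) := hH.comp (NPC.Poly.fst NPC.Poly.id)
  have hx' : UPoly (fun p : α × (ℕ × ℕ) => x p.1) := hx.comp (NPC.Poly.fst NPC.Poly.id)
  have hy' : UPoly (fun p : α × (ℕ × ℕ) => y p.1) := hy.comp (NPC.Poly.fst NPC.Poly.id)
  refine NPC.Poly.append (NPC.Poly.append (NPC.Poly.map (F := fun (p : α × (ℕ × ℕ)) t => off p.2 t) hH' ?_)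
    (poly_replicate hx' (NPC.Poly.const true))) (poly_replicate hy' (NPC.Poly.const false))
  exact poly_off (NPC.Poly.snd (NPC.Poly.fst NPC.Poly.id)) (NPC.Poly.snd NPC.Poly.id)

theorem poly_instB {V : α → List (ℕ × ℕ)} {H : α → List ((ℕ × ℕ) × (ℕ × ℕ) × (ℕ × ℕ))}
    {x y k : α → ℕ} (hV : NPC.Poly V) (hH : NPC.Poly H) (hx : UPoly x) (hy : UPoly y) (hk : NPC.Poly k) :
    NPC.Poly (fun a => instB (V a) (H a) (x a) (y a) (k a)) := by
  unfold instB
  refine NPC.Poly.pair (NPC.Poly.map (F := fun a t => (V a).map (fun u => off u t) ++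
    List.replicate (x a) true ++ List.replicate (y a) false) hH ?_) hk
  have hV' : NPC.Poly (fun p : α × ((ℕ × ℕ) × (ℕ × ℕ) × (ℕ × ℕ)) => V p.1) :=
    hV.comp (NPC.Poly.fst NPC.Poly.id)
  have hx' : UPoly (fun p : α × ((ℕ × ℕ) × (ℕ × ℕ) × (ℕ × ℕ)) => x p.1) :=
    hx.comp (NPC.Poly.fst NPC.Poly.id)
  have hy' : UPoly (fun p : α × ((ℕ × ℕ) × (ℕ × ℕ) × (ℕ × ℕ)) => y p.1) :=
    hy.comp (NPC.Poly.fst NPC.Poly.id)
  refine NPC.Poly.append (NPC.Poly.append
    (NPC.Poly.map (F := fun (p : α × ((ℕ × ℕ) × (ℕ × ℕ) × (ℕ × ℕ))) u => off u p.2) hV' ?_)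
    (poly_replicate hx' (NPC.Poly.const true))) (poly_replicate hy' (NPC.Poly.const false))
  exact poly_off (NPC.Poly.snd NPC.Poly.id) (NPC.Poly.snd (NPC.Poly.fst NPC.Poly.id))

theorem poly_probe {m t : α → ℕ} (hm : UPoly m) (ht : UPoly t) :
    NPC.Poly (fun a => probe (m a) (t a)) := by
  unfold probe
  have h1 : UPoly (fun a => m a - t a) :=
    UPoly.of_le (NPC.Poly.sub hm.toPoly ht.toPoly) hm (fun a => Nat.sub_le _ _)
  exact NPC.Poly.pair (NPC.Poly.cons (NPC.Poly.append (poly_replicate ht (NPC.Poly.const true))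
    (poly_replicate h1 (NPC.Poly.const false))) (NPC.Poly.const [])) (NPC.Poly.const 0)

theorem upoly_min {m : α → ℕ} (hm : UPoly m) : UPoly (fun p : α × ℕ => min p.2 (m p.1)) :=
  UPoly.of_le (NPC.Poly.min (NPC.Poly.snd NPC.Poly.id) (hm.toPoly.comp (NPC.Poly.fst NPC.Poly.id)))
    (hm.comp (NPC.Poly.fst NPC.Poly.id)) (fun p => min_le_right _ _)

theorem upoly_zc {d : List (List Bool) × ℕ → Bool} (hd : NPC.Poly d) {m : α → ℕ} (hm : UPoly m) :
    UPoly (fun a => zc d (m a)) := by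
  unfold zc
  refine UPoly.length (NPC.Poly.filter (p := fun a t => !d (probe (m a) (min t (m a))))
    (UPoly.add hm (UPoly.const 1)).range ?_)
  exact NPC.Poly.not (hd.comp (poly_probe (hm.comp (NPC.Poly.fst NPC.Poly.id)) (upoly_min hm)))

theorem poly_testAt {d : List (List Bool) × ℕ → Bool} (hd : NPC.Poly d) {V : α → List (ℕ × ℕ)}
    {H : α → List ((ℕ × ℕ) × (ℕ × ℕ) × (ℕ × ℕ))} {k m : α → ℕ} (hV : NPC.Poly V) (hH : NPC.Poly H)
    (hk : UPoly k) (hm : UPoly m) : NPC.Poly (fun a => testAt d (V a) (H a) (k a) (m a)) := by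
  have hz := upoly_zc hd hm
  have hk3 := upoly_pow3 hk
  have hHl : UPoly (fun a => (H a).length) := UPoly.length hH
  have hVl : UPoly (fun a => (V a).length) := UPoly.length hV
  have e1 : UPoly (fun a => zc d (m a) - k a ^ 3) :=
    UPoly.of_le (NPC.Poly.sub hz.toPoly hk3.toPoly) hz (fun a => Nat.sub_le _ _)
  have e2 : UPoly (fun a => m a - (H a).length - (zc d (m a) - k a ^ 3)) :=
    UPoly.of_le (NPC.Poly.sub (NPC.Poly.sub hm.toPoly hHl.toPoly) e1.toPoly) hm
      (fun a => (Nat.sub_le _ _).trans (Nat.sub_le _ _))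
  have e3 : UPoly (fun a => m a - zc d (m a) - k a) :=
    UPoly.of_le (NPC.Poly.sub (NPC.Poly.sub hm.toPoly hz.toPoly) hk.toPoly) hm
      (fun a => (Nat.sub_le _ _).trans (Nat.sub_le _ _))
  have e4 : UPoly (fun a => m a - (V a).length - (m a - zc d (m a) - k a)) :=
    UPoly.of_le (NPC.Poly.sub (NPC.Poly.sub hm.toPoly hVl.toPoly) e3.toPoly) hm
      (fun a => (Nat.sub_le _ _).trans (Nat.sub_le _ _))
  have e5 : NPC.Poly (fun a => (H a).length - k a ^ 3) := NPC.Poly.sub hHl.toPoly hk3.toPoly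
  have e6 : NPC.Poly (fun a => m a - zc d (m a)) := NPC.Poly.sub hm.toPoly hz.toPoly
  unfold testAt
  refine NPC.Poly.and (NPC.Poly.and (NPC.Poly.and ?_ (NPC.Poly.decide_le hk3.toPoly hz.toPoly))
    (NPC.Poly.decide_le hk3.toPoly e6)) ?_
  · exact NPC.Poly.decide_le (NPC.Poly.mul (NPC.Poly.const 2) (NPC.Poly.add hHl.toPoly hVl.toPoly)) hm.toPoly
  · exact NPC.Poly.ite (p := fun a => zc d (m a) ≤ m a - zc d (m a)) (NPC.Poly.decide_le hz.toPoly e6)
      (hd.comp (poly_instA hV hH e1 e2 hk.toPoly)) (hd.comp (poly_instB hV hH e4 e3 e5))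

theorem poly_solve {d : List (List Bool) × ℕ → Bool} (hd : NPC.Poly d) {φ : α → List Clause3}
    {k A : α → ℕ} (hφ : NPC.Poly φ) (hk : UPoly k) (hA : UPoly A) :
    NPC.Poly (fun a => solve d (φ a) (k a) (A a)) := by
  have hv := poly_verts hk hA
  have hh := poly_hyp hφ hk hA
  have ht : UPoly (fun a => top (k a) (A a)) :=
    UPoly.mul (UPoly.const 256) (upoly_pow3 (UPoly.mul hk hA))
  unfold solve
  refine NPC.Poly.and (NPC.Poly.decide_le (upoly_pow3 hk).toPoly (NPC.Poly.length hh)) ?_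
  refine NPC.Poly.any (p := fun a m => testAt d (verts (k a) (A a)) (hyp (φ a) (k a) (A a)) (k a)
    (min m (top (k a) (A a)))) (UPoly.add ht (UPoly.const 1)).range ?_
  exact poly_testAt hd (hv.comp (NPC.Poly.fst NPC.Poly.id)) (hh.comp (NPC.Poly.fst NPC.Poly.id))
    (hk.comp (NPC.Poly.fst NPC.Poly.id)) (upoly_min ht)

theorem upoly_expo : UPoly expo := by
  have h1 : UPoly (fun a : List Clause3 × List Unit × List Unit => numVars a.1) :=
    upoly_numVars (NPC.Poly.fst NPC.Poly.id)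
  have h2 : UPoly (fun a : List Clause3 × List Unit × List Unit => a.2.1.length) :=
    UPoly.length (NPC.Poly.fst (NPC.Poly.snd NPC.Poly.id))
  have h3 : UPoly (fun a : List Clause3 × List Unit × List Unit => a.2.2.length) :=
    UPoly.length (NPC.Poly.snd (NPC.Poly.snd NPC.Poly.id))
  have h4 : UPoly (fun a : List Clause3 × List Unit × List Unit =>
      numVars a.1 / a.2.1.length) :=
    UPoly.of_le (NPC.Poly.div h1.toPoly h2.toPoly) h1 (fun a => Nat.div_le_self _ _)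
  exact UPoly.add (UPoly.add h4 (UPoly.const 1)) h3

end Alg

end PP

theorem t_Poly : StmPoly := by
  intro d hd
  refine ⟨PP.upoly_expo, ?_⟩
  have hv : NPC.Poly (fun x : {x : (List Clause3 × List Unit × List Unit) × List Unit //
      2 ^ expo x.1 ≤ x.2.length} => x.1) := NPC.Poly.val _
  have hx : NPC.Poly (fun x : {x : (List Clause3 × List Unit × List Unit) × List Unit //
      2 ^ expo x.1 ≤ x.2.length} => x.1.1) := NPC.Poly.fst hv
  have he : UPoly (fun x : {x : (List Clause3 × List Unit × List Unit) × List Unit //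
      2 ^ expo x.1 ≤ x.2.length} => expo x.1.1) := PP.upoly_expo.comp hx
  have hA : UPoly (fun x : {x : (List Clause3 × List Unit × List Unit) × List Unit //
      2 ^ expo x.1 ≤ x.2.length} => 2 ^ expo x.1.1) :=
    UPoly.of_le (PP.poly_two_pow he) (UPoly.length (NPC.Poly.snd hv)) (fun x => x.2)
  exact PP.poly_solve hd (NPC.Poly.fst hx) (UPoly.length (NPC.Poly.fst (NPC.Poly.snd hx))) hA

end Pool.Agent.R547.LB
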