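import Pool.Agent.R547.LB.Stm

/-!
# SOLVE: correctness of the algorithm
-/

namespace Pool.Agent.R547.LB

open Pool.Agent.NPC Turing

namespace SolveAx

lemma verts_nodup (k A : ℕ) : (verts k A).Nodup :=
  List.Nodup.product List.nodup_range List.nodup_range

lemma prod_length {α β : Type} (l : List α) (l' : List β) :
    (l.product l').length = l.length * l'.length := List.length_product l l'

lemma verts_length (k A : ℕ) : (verts k A).length = k * A := by
  unfold verts
  rw [prod_length, List.length_range, List.length_range]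

lemma hyp_nodup (φ : List Clause3) (k A : ℕ) : (hyp φ k A).Nodup :=
  List.Nodup.filter _ (List.Nodup.product (verts_nodup k A)
    (List.Nodup.product (verts_nodup k A) (verts_nodup k A)))

lemma hyp_mem (φ : List Clause3) (k A : ℕ) :
    ∀ t ∈ hyp φ k A, t.1 ∈ verts k A ∧ t.2.1 ∈ verts k A ∧ t.2.2 ∈ verts k A := by
  rintro ⟨a, b, c⟩ ht
  have h1 := (List.mem_filter.1 ht).1
  rw [List.pair_mem_product, List.pair_mem_product] at h1
  exact ⟨h1.1, h1.2.1, h1.2.2⟩

lemma hyp_length (φ : List Clause3) (k A : ℕ) : (hyp φ k A).length ≤ (k * A) ^ 3 := by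
  refine (List.length_filter_le _ _).trans ?_
  rw [prod_length, prod_length, verts_length]
  apply le_of_eq
  ring

lemma dense_le {τ : Type} [DecidableEq τ] (H : List (τ × τ × τ)) (k K : ℕ) (h : Dense H k K) :
    K ≤ H.length := by
  obtain ⟨S, -, hS⟩ := h
  exact hS.trans ((Finset.card_le_card Finset.inter_subset_left).trans (List.toFinset_card_le H))

/-- the last part of the test is right -/
lemma last (hA : StmA) (hB : StmB) (z : ℕ → ℕ) (d : List (List Bool) × ℕ → Bool)
    (hz : ∀ m, z m ≤ m) (hd : ∀ I, d I = true ↔ OLD z I) (V : List (ℕ × ℕ))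
    (H : List ((ℕ × ℕ) × (ℕ × ℕ) × (ℕ × ℕ))) (hV : V.Nodup) (hH : H.Nodup)
    (hHV : ∀ t ∈ H, t.1 ∈ V ∧ t.2.1 ∈ V ∧ t.2.2 ∈ V) (k K m : ℕ) (hk : k < V.length)
    (hkK : k ≤ K) (hK1 : 1 ≤ K) (hKH : K ≤ H.length) (h1 : 2 * (H.length + V.length) ≤ m)
    (h2 : K ≤ z m) (h3 : K ≤ m - z m) :
    (if z m ≤ m - z m then d (instA V H (z m - K) (m - H.length - (z m - K)) k)
      else d (instB V H (m - V.length - (m - z m - k)) (m - z m - k) (H.length - K))) = true ↔
      Dense H k K := by
  have hzm := hz m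
  split_ifs with h
  · rw [hd]
    apply hA (ℕ × ℕ) z V H _ _ K k hV hH hHV hk
    have e : H.length + (z m - K) + (m - H.length - (z m - K)) = m := by omega
    rw [e]
    omega
  · rw [hd]
    apply hB (ℕ × ℕ) z V H _ _ K k hV hH hHV hK1 hKH
    have e : V.length + (m - V.length - (m - z m - k)) + (m - z m - k) = m := by omega
    rw [e]
    omega

end SolveAx

open SolveAx in
theorem t_Solve (hC : StmComb) (hA : StmA) (hB : StmB) (hZ : StmZc) : StmSolve := by
  intro z d hz hd φ k A hk hAk hm
  have hzc : ∀ m, zc d m = z m := hZ z d hz hd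
  have hA2 : 2 ≤ A := by
    have h1 : 2 ^ 1 ≤ 2 ^ blk φ k :=
      Nat.pow_le_pow_right (by norm_num) (by unfold blk; exact Nat.le_add_left _ _)
    omega
  have hkA : k < k * A := by
    calc k = k * 1 := (mul_one k).symm
      _ < k * A := Nat.mul_lt_mul_of_pos_left (by omega) (by omega)
  have hkV : k < (verts k A).length := by rw [verts_length]; exact hkA
  have hkK : k ≤ k ^ 3 := by
    calc k = k ^ 1 := (pow_one k).symm
      _ ≤ k ^ 3 := Nat.pow_le_pow_right hk (by norm_num)
  have hK1 : 1 ≤ k ^ 3 := le_trans hk hkK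
  rw [hC φ k A hk hAk]
  constructor
  · intro h
    unfold solve at h
    rw [Bool.and_eq_true, decide_eq_true_iff, List.any_eq_true] at h
    obtain ⟨hKH, m', -, ht⟩ := h
    set m := min m' (top k A) with hmdef
    unfold testAt at ht
    rw [Bool.and_eq_true, Bool.and_eq_true, Bool.and_eq_true, decide_eq_true_iff,
      decide_eq_true_iff, decide_eq_true_iff, hzc] at ht
    obtain ⟨⟨⟨h1, h2⟩, h3⟩, h4⟩ := ht
    exact (last hA hB z d hz hd (verts k A) (hyp φ k A) (verts_nodup k A) (hyp_nodup φ k A)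
      (hyp_mem φ k A) k (k ^ 3) m hkV hkK hK1 hKH h1 h2 h3).1 h4
  · intro h
    have hKH := dense_le _ _ _ h
    obtain ⟨m, hm1, hm2, hm3⟩ := hm
    have h2 : k ^ 3 ≤ z m := hm3.trans (min_le_left _ _)
    have h3 : k ^ 3 ≤ m - z m := hm3.trans (min_le_right _ _)
    have hlen := hyp_length φ k A
    have hVle : (verts k A).length ≤ (k * A) ^ 3 := by
      rw [verts_length]
      calc k * A = (k * A) ^ 1 := (pow_one _).symm
        _ ≤ (k * A) ^ 3 := Nat.pow_le_pow_right (by omega) (by norm_num)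
    have h1 : 2 * ((hyp φ k A).length + (verts k A).length) ≤ m := by omega
    have hmin : min m (top k A) = m := min_eq_left hm2
    unfold solve
    rw [Bool.and_eq_true, decide_eq_true_iff, List.any_eq_true]
    refine ⟨hKH, m, ?_, ?_⟩
    · rw [List.mem_range]
      unfold top
      omega
    · rw [hmin]
      unfold testAt
      rw [Bool.and_eq_true, Bool.and_eq_true, Bool.and_eq_true, decide_eq_true_iff,
        decide_eq_true_iff, decide_eq_true_iff, hzc]
      exact ⟨⟨⟨h1, h2⟩, h3⟩, (last hA hB z d hz hd (verts k A) (hyp φ k A) (verts_nodup k A)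
        (hyp_nodup φ k A) (hyp_mem φ k A) k (k ^ 3) m hkV hkK hK1 hKH h1 h2 h3).2 h⟩

end Pool.Agent.R547.LB
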