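import Pool.Agent.R547.LB.Stm

/-!
# The stronger version: statements
-/

namespace Pool.Agent.R547.LB

open Pool.Agent.NPC Turing

/-- soundness of the algorithm -/
def StmSound : Prop := ∀ (z : ℕ → ℕ) (d : List (List Bool) × ℕ → Bool), (∀ m, z m ≤ m) →
  (∀ I, d I = true ↔ OLD z I) → ∀ (φ : List Clause3) (k A : ℕ), 1 ≤ k → 2 ^ blk φ k ≤ A →
  solve d φ k A = true → Sat φ

/-- the algorithm with many scales: `C * k` blocks, all `A = 2 ^ e` with `e ≤ expo a` -/
def solveC (d : List (List Bool) × ℕ → Bool) (C : ℕ) (a : List Clause3 × List Unit × List Unit) :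
    Bool :=
  (List.range (expo a + 1)).any (fun e =>
    decide (blk a.1 (C * a.2.1.length) ≤ min e (expo a)) &&
      solve d a.1 (C * a.2.1.length) (2 ^ min e (expo a)))

/-- POLYC: polynomial on padded inputs. -/
def StmPolyC : Prop := ∀ (d : List (List Bool) × ℕ → Bool) (C : ℕ), Poly d →
  Poly (fun x : {x : (List Clause3 × List Unit × List Unit) × List Unit //
      2 ^ expo x.1 ≤ x.2.length} => solveC d C x.1.1)

/-- The main theorem, stronger form. -/
def StmMain2 : Prop := ∀ z : ℕ → ℕ, (∀ m, z m ≤ m) → InPP (OLD z) →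
  ((∃ c : ℕ, ∀ K, ∃ x₀, ∀ x, x₀ ≤ x → ∃ m, x ≤ m ∧ m ≤ x ^ c ∧ K ≤ min (z m) (m - z m)) →
    ¬ ETH) ∧
  ((∀ K, ∃ m, K ≤ min (z m) (m - z m)) → ¬ IoETH)

end Pool.Agent.R547.LB
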