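import Pool.Agent.R547.LB.Solve
import Pool.Agent.R547.LB.Stm2

/-!
# Soundness of the algorithm (without a suitable number of issues)
-/

namespace Pool.Agent.R547.LB

open Pool.Agent.NPC Turing

open SolveAx in
theorem t_Sound (hC : StmComb) (hA : StmA) (hB : StmB) (hZ : StmZc) : StmSound := by
  intro z d hz hd φ k A hk hAk h
  have hzc : ∀ m, zc d m = z m := hZ z d hz hd
  have hA2 : 2 ≤ A := by
    have h1 : 2 ^ 1 ≤ 2 ^ blk φ k :=
      Nat.pow_le_pow_right (by norm_num) (by unfold blk; exact Nat.le_add_left _ _)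
    omega
  have hkA : k < k * A := by
    calc k = k * 1 := (mul_one k).symm
      _ < k * A := Nat.mul_lt_mul_of_pos_left (by omega) (by omega)
  have hkV : k < (verts k A).length := by rw [verts_length]; exact hkA
  have hkK : k ≤ k ^ 3 := by
    calc k = k ^ 1 := (pow_one k).symm
      _ ≤ k ^ 3 := Nat.pow_le_pow_right hk (by norm_num)
  have hK1 : 1 ≤ k ^ 3 := le_trans hk hkK
  rw [hC φ k A hk hAk]
  unfold solve at h
  rw [Bool.and_eq_true, decide_eq_true_iff, List.any_eq_true] at h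
  obtain ⟨hKH, m', -, ht⟩ := h
  set m := min m' (top k A) with hmdef
  unfold testAt at ht
  rw [Bool.and_eq_true, Bool.and_eq_true, Bool.and_eq_true, decide_eq_true_iff,
    decide_eq_true_iff, decide_eq_true_iff, hzc] at ht
  obtain ⟨⟨⟨h1, h2⟩, h3⟩, h4⟩ := ht
  exact (last hA hB z d hz hd (verts k A) (hyp φ k A) (verts_nodup k A) (hyp_nodup φ k A)
    (hyp_mem φ k A) k (k ^ 3) m hkV hkK hK1 hKH h1 h2 h3).1 h4

end Pool.Agent.R547.LB
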