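import Pool.Agent.R547.LB.Stm

/-!
Project LB (MP_8eff38_lc), piece TIME, by helper609: from polynomial time on padded inputs to a
`2 ^ (δ N)` Turing machine.
-/

namespace Pool.Agent.R547.LB

open Pool.Agent.NPC Turing

namespace TimeAux

/-- the real power of two dominates -/
lemma pow_le (δ : ℝ) (k D N : ℕ) (hk : 1 ≤ k) (hkD : 2 * (D : ℝ) ≤ δ * k) :
    (((2 ^ (2 * (N / k))) ^ D : ℕ) : ℝ) ≤ (2 : ℝ) ^ (δ * (N : ℝ)) := by
  have hk0 : (0 : ℝ) < k := by exact_mod_cast hk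
  have h1 : (((2 ^ (2 * (N / k))) ^ D : ℕ) : ℝ) = (2 : ℝ) ^ (((2 * (N / k) * D : ℕ)) : ℝ) := by
    rw [Real.rpow_natCast, ← pow_mul]
    push_cast
    rfl
  rw [h1]
  refine Real.rpow_le_rpow_of_exponent_le one_le_two ?_
  have h2 : ((N / k : ℕ) : ℝ) ≤ (N : ℝ) / k := Nat.cast_div_le
  have h3 : (N : ℝ) / k * k = N := div_mul_cancel₀ _ hk0.ne'
  have h4 : (0 : ℝ) ≤ ((N / k : ℕ) : ℝ) := Nat.cast_nonneg _
  have h5 : ((N / k : ℕ) : ℝ) * k ≤ N := by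
    calc ((N / k : ℕ) : ℝ) * k ≤ (N : ℝ) / k * k := by gcongr
      _ = N := h3
  push_cast
  rcases le_or_gt 0 δ with hδ | hδ
  · calc 2 * ((N / k : ℕ) : ℝ) * D = (2 * (D : ℝ)) * ((N / k : ℕ) : ℝ) := by ring
      _ ≤ (δ * k) * ((N / k : ℕ) : ℝ) := by gcongr
      _ = δ * (((N / k : ℕ) : ℝ) * k) := by ring
      _ ≤ δ * N := by gcongr
  · exfalso
    have : (0 : ℝ) ≤ D := Nat.cast_nonneg _
    nlinarith

end TimeAux

open TimeAux in
theorem t_Time : StmTime := by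
  intro g hU hg δ hδ
  obtain ⟨c, P, hc⟩ := fpt_run g expo (fun n => n) hU hg
  obtain ⟨C, D, hP⟩ := eval_le_pow P
  obtain ⟨k', hk'⟩ := exists_nat_ge (2 * (D : ℝ) / δ)
  obtain ⟨k, hk, hkD⟩ : ∃ k : ℕ, 1 ≤ k ∧ 2 * (D : ℝ) ≤ δ * k := by
    refine ⟨k' + 1, by omega, ?_⟩
    rw [div_le_iff₀ hδ] at hk'
    push_cast
    nlinarith
  refine ⟨k, hk, fun s => ?_⟩
  have hf : Poly (fun φ : List Clause3 => (φ, List.replicate k (), List.replicate s ())) :=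
    Pool.Agent.NPC.Poly.pair Pool.Agent.NPC.Poly.id
      (Pool.Agent.NPC.Poly.const (List.replicate k (), List.replicate s ()))
  obtain ⟨c1, q, hc1⟩ := hf
  obtain ⟨tm, e0, e1, htm⟩ := runs_to_tm
    (fun φ : List Clause3 => g (φ, List.replicate k (), List.replicate s ())) (Cmd.seq c1 c) _
    (fun φ => (hc1 φ).seq (hc (φ, List.replicate k (), List.replicate s ())))
  obtain ⟨K0, hK0⟩ : ∃ K0 : ℕ, K0 = sz (List.replicate k (), List.replicate s ()) + 1 := ⟨_, rfl⟩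
  obtain ⟨c2, hc2⟩ : ∃ c2 : ℕ, c2 = 2 ^ (2 * s + 6) := ⟨_, rfl⟩
  refine ⟨⟨tm, e0, e1⟩, q + 1 + Polynomial.C C * (Polynomial.X + Polynomial.C (K0 + c2)) ^ D,
    fun φ => ⟨_, htm φ, ?_⟩⟩
  obtain ⟨N, hN⟩ : ∃ N : ℕ, N = numVars φ := ⟨_, rfl⟩
  have hexp : expo (φ, List.replicate k (), List.replicate s ()) = N / k + 1 + s := by
    rw [hN]
    simp [expo]
  have hlen : (bits (φ, List.replicate k (), List.replicate s ())).length =
      (bits φ).length + K0 := by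
    rw [hK0, bits_length, bits_length, sz_pair]
    ring
  rw [hexp, hlen, ← hN]
  generalize (bits φ).length = x
  have hW : 2 ^ (2 * (N / k + 1 + s) + 4) = c2 * 2 ^ (2 * (N / k)) := by
    rw [hc2, ← pow_add]
    congr 1
    ring
  have hW1 : 1 ≤ 2 ^ (2 * (N / k)) := Nat.one_le_two_pow
  rw [hW]
  obtain ⟨W, hWd⟩ : ∃ W : ℕ, W = 2 ^ (2 * (N / k)) := ⟨_, rfl⟩
  rw [← hWd] at hW1 ⊢
  have h1 : P.eval (x + K0 + c2 * W) ≤ C * (x + (K0 + c2)) ^ D * W ^ D := by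
    have hK : 1 ≤ K0 := by omega
    refine (hP _ (by omega)).trans ?_
    rw [mul_assoc, ← mul_pow]
    refine Nat.mul_le_mul_left _ (Nat.pow_le_pow_left ?_ D)
    have h2 : (x + K0) * 1 ≤ (x + K0) * W := Nat.mul_le_mul_left _ hW1
    nlinarith
  have h2 : ((W ^ D : ℕ) : ℝ) ≤ (2 : ℝ) ^ (δ * (N : ℝ)) := by
    rw [hWd]
    exact pow_le δ k D N hk hkD
  have h3 : (1 : ℝ) ≤ (2 : ℝ) ^ (δ * (N : ℝ)) :=
    Real.one_le_rpow one_le_two (by positivity)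
  have h4 : ((q.eval x + P.eval (x + K0 + c2 * W) + 1 : ℕ) : ℝ) ≤
      ((q.eval x + 1 : ℕ) : ℝ) * 1 + ((C * (x + (K0 + c2)) ^ D : ℕ) : ℝ) * ((W ^ D : ℕ) : ℝ) := by
    rw [mul_one, ← Nat.cast_mul, ← Nat.cast_add]
    exact_mod_cast (by omega)
  refine h4.trans ?_
  have h5 : ((q + 1 + Polynomial.C C * (Polynomial.X + Polynomial.C (K0 + c2)) ^ D).eval x : ℕ) =
      (q.eval x + 1) + C * (x + (K0 + c2)) ^ D := by
    simp
  rw [h5, Nat.cast_add (q.eval x + 1), mul_add]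
  refine add_le_add ?_ ?_
  · rw [mul_comm ((2 : ℝ) ^ (δ * (N : ℝ)))]
    exact mul_le_mul_of_nonneg_left h3 (Nat.cast_nonneg _)
  · rw [mul_comm ((2 : ℝ) ^ (δ * (N : ℝ)))]
    exact mul_le_mul_of_nonneg_left h2 (Nat.cast_nonneg _)

end Pool.Agent.R547.LB
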