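import Pool.Agent.R547.LB.Stm

/-!
# The quota is computed correctly
-/

namespace Pool.Agent.R547.LB

open Pool.Agent.NPC Turing

namespace ZcAux

lemma card_lt (M t : ℕ) (h : t ≤ M) :
    (Finset.univ.filter (fun j : Fin M => j.1 < t)).card = t := by
  have h1 : (Finset.univ.filter (fun j : Fin M => j.1 < t)).map Fin.valEmbedding =
      Finset.range t := by
    ext a
    simp only [Finset.mem_map, Finset.mem_filter, Finset.mem_univ, true_and, Fin.valEmbedding_apply,
      Finset.mem_range]
    constructor
    · rintro ⟨j, hj, rfl⟩
      exact hj
    · intro ha
      exact ⟨⟨a, by omega⟩, ha, rfl⟩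
  have h2 := congrArg Finset.card h1
  rwa [Finset.card_map, Finset.card_range] at h2

lemma filt_len (a M : ℕ) (h : a ≤ M) :
    ((List.range M).filter (fun t => decide (t < a))).length = a := by
  obtain ⟨b, rfl⟩ := Nat.exists_eq_add_of_le h
  rw [List.range_add, List.filter_append, List.length_append]
  have h1 : (List.range a).filter (fun t => decide (t < a)) = List.range a := by
    rw [List.filter_eq_self]
    intro t ht
    simpa using ht
  have h2 : ((List.range b).map (fun x => a + x)).filter (fun t => decide (t < a)) = [] := by
    rw [List.filter_eq_nil_iff]
    intro t ht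
    obtain ⟨x, _, rfl⟩ := List.mem_map.1 ht
    simp
  rw [h1, h2, List.length_range, List.length_nil, add_zero]

lemma row_getD (m t j : ℕ) :
    (List.replicate t true ++ List.replicate (m - t) false).getD j false = true ↔ j < t := by
  by_cases h : j < t
  · rw [List.getD_append _ _ _ _ (by rw [List.length_replicate]; exact h)]
    simp [h]
  · rw [List.getD_append_right _ _ _ _ (by rw [List.length_replicate]; omega)]
    simp only [h, iff_false, Bool.not_eq_true, List.length_replicate]
    rw [List.getD_eq_getElem?_getD]
    rw [List.getElem?_replicate]
    split_ifs <;> rfl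

lemma OLD_probe (z : ℕ → ℕ) (m t : ℕ) (ht : t ≤ m) : OLD z (probe m t) ↔ z m ≤ t := by
  have hlen : issues (probe m t).1 = m := by
    simp only [issues, probe, List.headD_cons, List.length_append, List.length_replicate]
    omega
  have hcard : (Finset.univ.filter (fun j : Fin (issues (probe m t).1) =>
      ∀ i : Fin (probe m t).1.length, ((probe m t).1.get i).getD j.1 false = true)).card = t := by
    have h1 : (Finset.univ.filter (fun j : Fin (issues (probe m t).1) =>
        ∀ i : Fin (probe m t).1.length, ((probe m t).1.get i).getD j.1 false = true)) =
        Finset.univ.filter (fun j : Fin (issues (probe m t).1) => j.1 < t) := by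
      ext j
      simp only [Finset.mem_filter, Finset.mem_univ, true_and]
      constructor
      · intro h
        have h2 := h ⟨0, by simp [probe]⟩
        exact (row_getD m t j.1).1 h2
      · intro h i
        have hi : i = ⟨0, by simp [probe]⟩ := by
          apply Fin.ext
          have := i.2
          simp only [probe, List.length_cons, List.length_nil] at this
          simp only
          omega
        rw [hi]
        exact (row_getD m t j.1).2 h
    rw [h1]
    exact card_lt _ _ (by rw [hlen]; exact ht)
  constructor
  · rintro ⟨-, -, -, Y, hY, hz⟩
    have hY0 : (Finset.univ.filter (fun i : Fin (probe m t).1.length =>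
        Y i ≠ fun j => ((probe m t).1.get i).getD j.1 false)).card = 0 := Nat.le_zero.1 hY
    rw [Finset.card_eq_zero, Finset.filter_eq_empty_iff] at hY0
    have hYX : ∀ i, Y i = fun j => ((probe m t).1.get i).getD j.1 false := by
      intro i
      have := hY0 (Finset.mem_univ i)
      push Not at this
      exact this
    simp only [hYX] at hz
    rw [hcard, hlen] at hz
    exact hz
  · intro hz
    refine ⟨by simp [probe], ?_, by simp [probe], fun i j => ((probe m t).1.get i).getD j.1 false, ?_, ?_⟩
    · intro r hr
      simp only [probe, List.mem_singleton] at hr
      rw [hr]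
      simp [issues, probe]
    · simp
    · rw [hcard, hlen]
      exact hz

end ZcAux

open ZcAux in
theorem t_Zc : StmZc := by
  intro z d hz hd m
  have h1 : ∀ t ∈ List.range (m + 1), (!d (probe m (min t m))) = decide (t < z m) := by
    intro t ht
    rw [List.mem_range] at ht
    have e : min t m = t := by omega
    rw [e]
    have h2 := (hd (probe m t)).trans (OLD_probe z m t (by omega))
    by_cases h3 : z m ≤ t
    · rw [h2.2 h3]
      simp only [Bool.not_true]
      symm
      rw [decide_eq_false_iff_not]
      omega
    · have h4 : d (probe m t) = false := by
        rw [← Bool.not_eq_true]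
        exact fun h => h3 (h2.1 h)
      rw [h4]
      simp only [Bool.not_false]
      symm
      rw [decide_eq_true_eq]
      omega
  unfold zc
  rw [List.filter_congr h1]
  exact filt_len (z m) (m + 1) ((hz m).trans (Nat.le_succ m))

end Pool.Agent.R547.LB
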