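import Pool.Agent.R547.LB.Main2
import Pool.Agent.R547.LB.PolyC
import Pool.Agent.R547.LB.Comb
import Pool.Agent.R547.LB.LobA
import Pool.Agent.R547.LB.LobB
import Pool.Agent.R547.LB.Zc
import Pool.Agent.R547.LB.Solve
import Pool.Agent.R547.LB.Sound
import Pool.Agent.R547.LB.PolyP
import Pool.Agent.R547.LB.TimeS

/-!
# All steps together
-/

namespace Pool.Agent.R547.LB

open Pool.Agent.NPC

theorem t_PolyGen : StmPolyGen := fun _ hd _ _ _ _ _ hφ hk hA => PP.poly_solve hd hφ hk hA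

theorem main : StmMain2 :=
  t_Main2 (t_Sound t_Comb t_A t_B t_Zc) (t_Solve t_Comb t_A t_B t_Zc) t_Poly
    (t_PolyC t_PolyGen) t_Time

end Pool.Agent.R547.LB
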