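import Pool.Agent.R547.LB.Stm
import Pool.Agent.R531.Agp.LV

/-!
# Assembly
-/

namespace Pool.Agent.R547.LB

open Pool.Agent.NPC Turing

/-- lower end of the window of numbers of issues tried for `N` variables -/
def low (k N : ℕ) : ℕ := 4 * (k * 2 ^ (N / k + 1)) ^ 3

theorem low_mono (k : ℕ) : Monotone (low k) := by
  intro a b h
  unfold low
  have h1 : a / k ≤ b / k := Nat.div_le_div_right h
  have h2 : 2 ^ (a / k + 1) ≤ 2 ^ (b / k + 1) := Nat.pow_le_pow_right (by norm_num) (by omega)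
  exact Nat.mul_le_mul_left _ (Nat.pow_le_pow_left (Nat.mul_le_mul_left _ h2) 3)

theorem low_succ (k N : ℕ) (hk : 1 ≤ k) : low k (N + 1) ≤ 256 * (k * 2 ^ (N / k + 1)) ^ 3 := by
  unfold low
  have h1 : (N + 1) / k ≤ N / k + 1 := by
    rw [Nat.div_le_iff_le_mul_add_pred (by omega)]
    have := Nat.div_add_mod N k
    have h2 := Nat.mod_lt N (show 0 < k by omega)
    rw [Nat.mul_add]
    omega
  have h2 : 2 ^ ((N + 1) / k + 1) ≤ 2 * 2 ^ (N / k + 1) := by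
    rw [← pow_succ']
    exact Nat.pow_le_pow_right (by norm_num) (by omega)
  have h3 : k * 2 ^ ((N + 1) / k + 1) ≤ 2 * (k * 2 ^ (N / k + 1)) := by
    calc k * 2 ^ ((N + 1) / k + 1) ≤ k * (2 * 2 ^ (N / k + 1)) := Nat.mul_le_mul_left _ h2
      _ = 2 * (k * 2 ^ (N / k + 1)) := by ring
  calc 4 * (k * 2 ^ ((N + 1) / k + 1)) ^ 3 ≤ 4 * (2 * (k * 2 ^ (N / k + 1))) ^ 3 :=
        Nat.mul_le_mul_left _ (Nat.pow_le_pow_left h3 3)
    _ = 32 * (k * 2 ^ (N / k + 1)) ^ 3 := by ring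
    _ ≤ 256 * (k * 2 ^ (N / k + 1)) ^ 3 := Nat.mul_le_mul_right _ (by norm_num)

theorem lt_low (k m : ℕ) (hk : 1 ≤ k) : m < low k (k * m) := by
  unfold low
  rw [Nat.mul_div_cancel_left _ (by omega)]
  have h1 : m + 1 < 2 ^ (m + 1) := Nat.lt_two_pow_self
  have h2 : 2 ^ (m + 1) ≤ k * 2 ^ (m + 1) := Nat.le_mul_of_pos_left _ (by omega)
  have h3 : k * 2 ^ (m + 1) ≤ (k * 2 ^ (m + 1)) ^ 3 := Nat.le_self_pow (by norm_num) _
  omega

/-- every large `m` is in the window of a large `N` -/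
theorem window (k N₀ m : ℕ) (hk : 1 ≤ k) (h : low k N₀ ≤ m) :
    ∃ N, N₀ ≤ N ∧ low k N ≤ m ∧ m ≤ 256 * (k * 2 ^ (N / k + 1)) ^ 3 := by
  classical
  have hex : ∃ N, m < low k N := ⟨k * m, lt_low k m hk⟩
  have h1 := Nat.find_spec hex
  have h2 : N₀ < Nat.find hex := by
    by_contra hc
    have := low_mono k (not_lt.1 hc)
    omega
  have h3 : ¬ m < low k (Nat.find hex - 1) := Nat.find_min hex (by omega)
  refine ⟨Nat.find hex - 1, by omega, by omega, ?_⟩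
  have h4 := low_succ k (Nat.find hex - 1) hk
  rw [show Nat.find hex - 1 + 1 = Nat.find hex by omega] at h4
  omega

theorem t_Main (hS : StmSolve) (hP : StmPoly) (hT : StmTime) : StmMain := by
  intro z hz hIn
  obtain ⟨d, hd, hdz⟩ := Pool.Agent.R531.Agp.dec_of_inPP hIn
  obtain ⟨hexpo, hpoly⟩ := hP d hd
  have hT' := hT (fun a => solve d a.1 a.2.1.length (2 ^ expo a)) hexpo hpoly
  constructor
  · rintro hlim ⟨δ, hδ, hno⟩
    apply hno
    obtain ⟨k, hk, h⟩ := hT' δ hδ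
    obtain ⟨m₀, hm₀⟩ := hlim (k ^ 3)
    obtain ⟨M, p, h⟩ := h m₀
    refine ⟨M, p, fun φ => ?_⟩
    obtain ⟨t, h1, h2⟩ := h φ
    refine ⟨t, _, h1, h2, fun _ => ?_⟩
    simp only [List.length_replicate, expo]
    refine hS z d hz hdz φ k _ hk (Nat.pow_le_pow_right (by norm_num) (by unfold blk; omega))
      ⟨4 * (k * 2 ^ (numVars φ / k + 1 + m₀)) ^ 3, le_rfl,
        Nat.mul_le_mul_right _ (by norm_num), hm₀ _ ?_⟩
    have e1 : m₀ < 2 ^ m₀ := Nat.lt_two_pow_self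
    have e2 : 2 ^ m₀ ≤ 2 ^ (numVars φ / k + 1 + m₀) :=
      Nat.pow_le_pow_right (by norm_num) (Nat.le_add_left _ _)
    have e3 : 2 ^ (numVars φ / k + 1 + m₀) ≤ k * 2 ^ (numVars φ / k + 1 + m₀) :=
      Nat.le_mul_of_pos_left _ (by omega)
    have e4 : k * 2 ^ (numVars φ / k + 1 + m₀) ≤ (k * 2 ^ (numVars φ / k + 1 + m₀)) ^ 3 :=
      Nat.le_self_pow (by norm_num) _
    omega
  · rintro hunb ⟨δ, hδ, hno⟩
    obtain ⟨k, hk, h⟩ := hT' δ hδ
    obtain ⟨M, p, h⟩ := h 0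
    set A : Set ℕ := {N | ∃ m, low k N ≤ m ∧ m ≤ 256 * (k * 2 ^ (N / k + 1)) ^ 3 ∧
      k ^ 3 ≤ min (z m) (m - z m)} with hA
    apply hno A
    · rw [Set.infinite_iff_exists_gt] <;> skip
      intro N₀
      obtain ⟨m, hm⟩ := hunb (max (k ^ 3) (low k (N₀ + 1)))
      have h1 : low k (N₀ + 1) ≤ m := by
        have e1 : low k (N₀ + 1) ≤ z m := (le_max_right _ _).trans (hm.trans (min_le_left _ _))
        exact e1.trans (hz m)
      obtain ⟨N, hN, hN1, hN2⟩ := window k (N₀ + 1) m hk h1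
      exact ⟨N, ⟨m, hN1, hN2, (le_max_left _ _).trans hm⟩, by omega⟩
    · refine ⟨M, p, fun φ => ?_⟩
      obtain ⟨t, h1, h2⟩ := h φ
      refine ⟨t, _, h1, h2, fun hN => ?_⟩
      simp only [List.length_replicate, expo]
      obtain ⟨m, hm1, hm2, hm3⟩ := hN
      refine hS z d hz hdz φ k _ hk (Nat.pow_le_pow_right (by norm_num) (by unfold blk; omega))
        ⟨m, ?_, ?_, hm3⟩
      · simpa [low] using hm1
      · simpa using hm2

end Pool.Agent.R547.LB
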