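import Pool.Agent.R547.LB.Stm2
import Pool.Agent.R547.LB.Main

/-!
# Assembly of the stronger version
-/

namespace Pool.Agent.R547.LB

open Pool.Agent.NPC Turing

/-- every `m` between the scales `e₀` and `e₁` is in the window of some scale -/
theorem scale (k e₀ e₁ m : ℕ) (h : e₀ ≤ e₁) (h0 : 4 * (k * 2 ^ e₀) ^ 3 ≤ m)
    (h1 : m ≤ 256 * (k * 2 ^ e₁) ^ 3) :
    ∃ e, e₀ ≤ e ∧ e ≤ e₁ ∧ 4 * (k * 2 ^ e) ^ 3 ≤ m ∧ m ≤ 256 * (k * 2 ^ e) ^ 3 := by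
  induction e₁, h using Nat.le_induction with
  | base => exact ⟨e₀, le_rfl, le_rfl, h0, h1⟩
  | succ n hn ih =>
    by_cases hc : 4 * (k * 2 ^ (n + 1)) ^ 3 ≤ m
    · exact ⟨n + 1, by omega, le_rfl, hc, h1⟩
    · have h2 : 4 * (k * 2 ^ (n + 1)) ^ 3 = 32 * (k * 2 ^ n) ^ 3 := by ring
      have h3 : m ≤ 256 * (k * 2 ^ n) ^ 3 := by omega
      obtain ⟨e, he0, he1, he2, he3⟩ := ih h3
      exact ⟨e, he0, by omega, he2, he3⟩

/-- the power of the lower end is below the upper end -/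
theorem scale_pow (c q s₁ N : ℕ) (hq : 1 ≤ q) (hc : 1 ≤ c) :
    (4 * ((c * q) * 2 ^ (N / (c * q) + 1 + s₁)) ^ 3) ^ c ≤
      256 * ((c * q) * 2 ^ (N / q + 1 + c * (c * q + s₁ + 3))) ^ 3 := by
  set k := c * q with hk
  have hk1 : 1 ≤ k := by
    rw [hk]; exact Nat.mul_pos hc hq
  have h1 : k ≤ 2 ^ k := Nat.lt_two_pow_self.le
  have h2 : c * (N / k) ≤ N / q := by
    rw [hk, mul_comm c q, ← Nat.div_div_eq_div_mul]
    exact Nat.mul_div_le _ _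
  have h3 : (4 * (k * 2 ^ (N / k + 1 + s₁)) ^ 3) ≤ 2 ^ (2 + 3 * (k + (N / k + 1 + s₁))) := by
    calc 4 * (k * 2 ^ (N / k + 1 + s₁)) ^ 3 ≤ 4 * (2 ^ k * 2 ^ (N / k + 1 + s₁)) ^ 3 :=
          Nat.mul_le_mul_left _ (Nat.pow_le_pow_left (Nat.mul_le_mul_right _ h1) 3)
      _ = 2 ^ (2 + 3 * (k + (N / k + 1 + s₁))) := by
          rw [← pow_add, ← pow_mul, show (4 : ℕ) = 2 ^ 2 by norm_num, ← pow_add]
          congr 1; ring
  have h4 : (4 * (k * 2 ^ (N / k + 1 + s₁)) ^ 3) ^ c ≤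
      2 ^ ((2 + 3 * (k + (N / k + 1 + s₁))) * c) := by
    rw [pow_mul]
    exact Nat.pow_le_pow_left h3 c
  refine h4.trans ?_
  have h5 : 2 ^ (3 * (N / q + 1 + c * (k + s₁ + 3))) ≤
      256 * (k * 2 ^ (N / q + 1 + c * (k + s₁ + 3))) ^ 3 := by
    rw [mul_pow, ← pow_mul, mul_comm 3]
    have : 1 ≤ k ^ 3 := Nat.one_le_pow _ _ hk1
    calc 2 ^ ((N / q + 1 + c * (k + s₁ + 3)) * 3)
        ≤ k ^ 3 * 2 ^ ((N / q + 1 + c * (k + s₁ + 3)) * 3) := Nat.le_mul_of_pos_left _ this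
      _ ≤ 256 * (k ^ 3 * 2 ^ ((N / q + 1 + c * (k + s₁ + 3)) * 3)) :=
        Nat.le_mul_of_pos_left _ (by norm_num)
  refine le_trans (Nat.pow_le_pow_right (by norm_num) ?_) h5
  nlinarith [h2, Nat.zero_le (N / k), Nat.zero_le s₁, Nat.zero_le c]

theorem t_Main2 (hSnd : StmSound) (hS : StmSolve) (hP : StmPoly) (hC : StmPolyC)
    (hT : StmTime) : StmMain2 := by
  intro z hz hIn
  refine ⟨?_, (t_Main hS hP hT z hz hIn).2⟩
  rintro ⟨c₀, hdense₀⟩ ⟨δ, hδ, hno⟩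
  -- make the exponent positive
  obtain ⟨c, hc, hdense⟩ : ∃ c, 1 ≤ c ∧ ∀ K, ∃ x₀, ∀ x, x₀ ≤ x → ∃ m, x ≤ m ∧ m ≤ x ^ c ∧
      K ≤ min (z m) (m - z m) := by
    refine ⟨c₀ + 1, by omega, fun K => ?_⟩
    obtain ⟨x₀, hx₀⟩ := hdense₀ K
    refine ⟨x₀ + 1, fun x hx => ?_⟩
    obtain ⟨m, h1, h2, h3⟩ := hx₀ x (by omega)
    exact ⟨m, h1, h2.trans (Nat.pow_le_pow_right (by omega) (by omega)), h3⟩
  obtain ⟨d, hd, hdz⟩ := Pool.Agent.R531.Agp.dec_of_inPP hIn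
  obtain ⟨hexpo, -⟩ := hP d hd
  apply hno
  obtain ⟨q, hq, h⟩ := hT (fun a => solveC d c a) hexpo (hC d c hd) δ hδ
  obtain ⟨x₀, hx₀⟩ := hdense ((c * q) ^ 3)
  obtain ⟨M, p, h⟩ := h (c * (c * q + x₀ + 3))
  have hcq : 1 ≤ c * q := Nat.mul_pos hc hq
  refine ⟨M, p, fun φ => ?_⟩
  obtain ⟨t, h1, h2⟩ := h φ
  refine ⟨t, _, h1, h2, fun _ => ?_⟩
  set N := numVars φ with hN
  have hexp : expo (φ, List.replicate q (), List.replicate (c * (c * q + x₀ + 3)) ()) =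
      N / q + 1 + c * (c * q + x₀ + 3) := by
    simp only [expo, List.length_replicate, hN]
  unfold solveC
  rw [hexp]
  simp only [List.length_replicate, List.any_eq_true, List.mem_range, Bool.and_eq_true,
    decide_eq_true_eq]
  constructor
  · rintro ⟨e, he, hb, hs⟩
    exact hSnd z d hz hdz φ (c * q) _ hcq (Nat.pow_le_pow_right (by norm_num) hb) hs
  · intro hsat
    have e0 : x₀ ≤ 4 * ((c * q) * 2 ^ (N / (c * q) + 1 + x₀)) ^ 3 := by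
      have e1 : x₀ < 2 ^ x₀ := Nat.lt_two_pow_self
      have e2 : 2 ^ x₀ ≤ 2 ^ (N / (c * q) + 1 + x₀) :=
        Nat.pow_le_pow_right (by norm_num) (Nat.le_add_left _ _)
      have e3 : 2 ^ (N / (c * q) + 1 + x₀) ≤ (c * q) * 2 ^ (N / (c * q) + 1 + x₀) :=
        Nat.le_mul_of_pos_left _ hcq
      have e4 : (c * q) * 2 ^ (N / (c * q) + 1 + x₀) ≤
          ((c * q) * 2 ^ (N / (c * q) + 1 + x₀)) ^ 3 := Nat.le_self_pow (by norm_num) _
      omega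
    obtain ⟨m, hm1, hm2, hm3⟩ := hx₀ _ e0
    have hle : N / (c * q) + 1 + x₀ ≤ N / q + 1 + c * (c * q + x₀ + 3) := by
      have f1 : N / (c * q) ≤ N / q := by
        rw [mul_comm c q, ← Nat.div_div_eq_div_mul]; exact Nat.div_le_self _ _
      have f2 : x₀ ≤ c * (c * q + x₀ + 3) := by
        calc x₀ ≤ c * q + x₀ + 3 := by omega
          _ ≤ c * (c * q + x₀ + 3) := Nat.le_mul_of_pos_left _ hc
      omega
    obtain ⟨e, he0, he1, he2, he3⟩ := scale (c * q) _ _ m hle hm1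
      (hm2.trans (scale_pow c q x₀ N hq hc))
    have hb : blk φ (c * q) ≤ e := by
      unfold blk
      rw [← hN]
      omega
    refine ⟨e, by omega, ?_, ?_⟩
    · rw [min_eq_left he1]; exact hb
    · rw [min_eq_left he1]
      exact (hS z d hz hdz φ (c * q) (2 ^ e) hcq (Nat.pow_le_pow_right (by norm_num) hb)
        ⟨m, he2, he3, hm3⟩).2 hsat

end Pool.Agent.R547.LB
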