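import Pool.Agent.R547.LB.Defs
import Pool.Agent.NPC.Dec
import Pool.Agent.H628R2.FPTW

/-!
# The reduction and the statements of the steps
-/

namespace Pool.Agent.R547.LB

open Pool.Agent.NPC Turing

/-! ### From 3-SAT to hypercliques -/

/-- the block size: the variables are cut into `k` blocks of at most `blk φ k` variables -/
def blk (φ : List Clause3) (k : ℕ) : ℕ := numVars φ / k + 1

/-- the position of a variable -/
def posV (φ : List Clause3) (v : ℕ) : ℕ := (varsOf φ).dedup.idxOf v

/-- the vertex `u = (j, a)` (block `j`, partial assignment coded by `a`) makes the literal `l`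
false -/
def falsi (φ : List Clause3) (k : ℕ) (u : ℕ × ℕ) (l : ℕ × Bool) : Bool :=
  decide (posV φ l.1 / blk φ k = u.1) &&
    !decide (u.2.testBit (posV φ l.1 % blk φ k) = l.2)

/-- one of the three vertices makes the literal false -/
def litBad (φ : List Clause3) (k : ℕ) (t : (ℕ × ℕ) × (ℕ × ℕ) × (ℕ × ℕ)) (l : ℕ × Bool) : Bool :=
  falsi φ k t.1 l || falsi φ k t.2.1 l || falsi φ k t.2.2 l

/-- vertices of the same block are equal -/
def sameOK (u v : ℕ × ℕ) : Bool := !decide (u.1 = v.1) || decide (u = v)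

/-- the triples of vertices that are hyperedges -/
def compat (φ : List Clause3) (k : ℕ) (t : (ℕ × ℕ) × (ℕ × ℕ) × (ℕ × ℕ)) : Bool :=
  sameOK t.1 t.2.1 && sameOK t.1 t.2.2 && sameOK t.2.1 t.2.2 &&
    φ.all (fun c => !(litBad φ k t c.1 && litBad φ k t c.2.1 && litBad φ k t c.2.2))

/-- the vertices -/
def verts (k A : ℕ) : List (ℕ × ℕ) := (List.range k).product (List.range A)

/-- the hyperedges (ordered triples, repetitions allowed) -/
def hyp (φ : List Clause3) (k A : ℕ) : List ((ℕ × ℕ) × (ℕ × ℕ) × (ℕ × ℕ)) :=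
  ((verts k A).product ((verts k A).product (verts k A))).filter (compat φ k)

/-- few vertices with many triples inside -/
def Dense {τ : Type} [DecidableEq τ] (H : List (τ × τ × τ)) (k K : ℕ) : Prop :=
  ∃ S : Finset τ, S.card ≤ k ∧ K ≤ (H.toFinset ∩ S ×ˢ S ×ˢ S).card

/-- COMB: satisfiability as a hyperclique problem. -/
def StmComb : Prop := ∀ (φ : List Clause3) (k A : ℕ), 1 ≤ k → 2 ^ blk φ k ≤ A →
  (Sat φ ↔ Dense (hyp φ k A) k (k ^ 3))

/-! ### From dense sets of triples to lobbying -/

/-- `x` is not one of the three entries of the triple -/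
def off {τ : Type} [DecidableEq τ] (x : τ) (t : τ × τ × τ) : Bool :=
  !(decide (x = t.1) || decide (x = t.2.1) || decide (x = t.2.2))

/-- voters: vertices; issues: triples, `α` issues approved by all, `β` issues approved by none -/
def instA {τ : Type} [DecidableEq τ] (V : List τ) (H : List (τ × τ × τ)) (α β k : ℕ) :
    List (List Bool) × ℕ :=
  (V.map (fun u => H.map (fun t => off u t) ++ List.replicate α true ++
    List.replicate β false), k)

/-- voters: triples; issues: vertices, `α` issues approved by all, `β` issues approved by none -/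
def instB {τ : Type} [DecidableEq τ] (V : List τ) (H : List (τ × τ × τ)) (α β k : ℕ) :
    List (List Bool) × ℕ :=
  (H.map (fun t => V.map (fun u => off u t) ++ List.replicate α true ++
    List.replicate β false), k)

/-- LOBA: the reduction for small quotas. -/
def StmA : Prop := ∀ (τ : Type) [DecidableEq τ] (z : ℕ → ℕ) (V : List τ) (H : List (τ × τ × τ))
  (α β K k : ℕ), V.Nodup → H.Nodup → (∀ t ∈ H, t.1 ∈ V ∧ t.2.1 ∈ V ∧ t.2.2 ∈ V) →
  k < V.length → z (H.length + α + β) = K + α →
  (OLD z (instA V H α β k) ↔ Dense H k K)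

/-- LOBB: the reduction for large quotas. -/
def StmB : Prop := ∀ (τ : Type) [DecidableEq τ] (z : ℕ → ℕ) (V : List τ) (H : List (τ × τ × τ))
  (α β K k : ℕ), V.Nodup → H.Nodup → (∀ t ∈ H, t.1 ∈ V ∧ t.2.1 ∈ V ∧ t.2.2 ∈ V) →
  1 ≤ K → K ≤ H.length → z (V.length + α + β) + (k + β) = V.length + α + β →
  (OLD z (instB V H α β (H.length - K)) ↔ Dense H k K)

/-! ### The algorithm -/

/-- one voter approving `t` of `m` issues, budget `0` -/
def probe (m t : ℕ) : List (List Bool) × ℕ :=
  ([List.replicate t true ++ List.replicate (m - t) false], 0)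

/-- the quota computed with the help of the test `d` for the lobbying problem -/
def zc (d : List (List Bool) × ℕ → Bool) (m : ℕ) : ℕ :=
  ((List.range (m + 1)).filter (fun t => !d (probe m (min t m)))).length

/-- ZC: the quota is computed correctly. -/
def StmZc : Prop := ∀ (z : ℕ → ℕ) (d : List (List Bool) × ℕ → Bool), (∀ m, z m ≤ m) →
  (∀ I, d I = true ↔ OLD z I) → ∀ m, zc d m = z m

/-- the test at `m` issues: `m` is large enough for the reduction, the quota is far from `0` and
from `m`, and the lobbying instance with `m` issues is a yes-instance -/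
def testAt (d : List (List Bool) × ℕ → Bool) (V : List (ℕ × ℕ))
    (H : List ((ℕ × ℕ) × (ℕ × ℕ) × (ℕ × ℕ))) (k m : ℕ) : Bool :=
  decide (2 * (H.length + V.length) ≤ m) && decide (k ^ 3 ≤ zc d m) &&
    decide (k ^ 3 ≤ m - zc d m) &&
    (if zc d m ≤ m - zc d m then
      d (instA V H (zc d m - k ^ 3) (m - H.length - (zc d m - k ^ 3)) k)
    else
      d (instB V H (m - V.length - (m - zc d m - k)) (m - zc d m - k) (H.length - k ^ 3)))

/-- the number of issues tried -/
def top (k A : ℕ) : ℕ := 256 * (k * A) ^ 3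

/-- the algorithm: `k` blocks, codes below `A` -/
def solve (d : List (List Bool) × ℕ → Bool) (φ : List Clause3) (k A : ℕ) : Bool :=
  decide (k ^ 3 ≤ (hyp φ k A).length) &&
    (List.range (top k A + 1)).any (fun m =>
      testAt d (verts k A) (hyp φ k A) k (min m (top k A)))

/-- SOLVE: the algorithm is right when a number of issues with a suitable quota is available. -/
def StmSolve : Prop := ∀ (z : ℕ → ℕ) (d : List (List Bool) × ℕ → Bool), (∀ m, z m ≤ m) →
  (∀ I, d I = true ↔ OLD z I) → ∀ (φ : List Clause3) (k A : ℕ), 1 ≤ k → 2 ^ blk φ k ≤ A →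
  (∃ m, 4 * (k * A) ^ 3 ≤ m ∧ m ≤ 256 * (k * A) ^ 3 ∧ k ^ 3 ≤ min (z m) (m - z m)) →
  (solve d φ k A = true ↔ Sat φ)

/-- the exponent: `A = 2 ^ expo` -/
def expo (a : List Clause3 × List Unit × List Unit) : ℕ :=
  numVars a.1 / a.2.1.length + 1 + a.2.2.length

/-- POLY: the algorithm is polynomial on padded inputs, uniformly in `k`. -/
def StmPoly : Prop := ∀ d : List (List Bool) × ℕ → Bool, Poly d →
  UPoly expo ∧
  Poly (fun x : {x : (List Clause3 × List Unit × List Unit) × List Unit //
      2 ^ expo x.1 ≤ x.2.length} =>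
    solve d x.1.1.1 x.1.1.2.1.length (2 ^ expo x.1.1))

/-- TIME: from polynomial time on padded inputs to time `2 ^ (δ N)`. -/
def StmTime : Prop := ∀ g : List Clause3 × List Unit × List Unit → Bool,
  UPoly expo →
  Poly (fun x : {x : (List Clause3 × List Unit × List Unit) × List Unit //
      2 ^ expo x.1 ≤ x.2.length} => g x.1.1) →
  ∀ δ : ℝ, 0 < δ → ∃ k : ℕ, 1 ≤ k ∧ ∀ s : ℕ,
    ∃ (M : TM2ComputableAux Bool Bool) (p : Polynomial ℕ), ∀ φ : List Clause3, ∃ t : ℕ,
      Pool.Agent.H633R2.TmRuns M (bits φ)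
        (bits (g (φ, List.replicate k (), List.replicate s ()))) t ∧
      (t : ℝ) ≤ (2 : ℝ) ^ (δ * (numVars φ : ℝ)) * (p.eval (bits φ).length : ℕ)

/-- The main theorem. -/
def StmMain : Prop := ∀ z : ℕ → ℕ, (∀ m, z m ≤ m) → InPP (OLD z) →
  ((∀ K, ∃ m₀, ∀ m, m₀ ≤ m → K ≤ min (z m) (m - z m)) → ¬ ETH) ∧
  ((∀ K, ∃ m, K ≤ min (z m) (m - z m)) → ¬ IoETH)

end Pool.Agent.R547.LB
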